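import Pool.Agent.Work.MP_970e75_an.Full.Lift
import Pool.Agent.Work.MP_970e75_an.Gen.OneParam

/-!
Discrete subgroups of Stein complex Lie groups of dimension zero and one.
-/

set_option autoImplicit false

namespace Pool.Agent.Work.MP_970e75_an.Full

open Filter Topology Set Metric
open scoped Manifold ContDiff Topology
open Pool.Agent.Work.MP_970e75_an.Gen

variable {E : Type} [NormedAddCommGroup E] [NormedSpace ℂ E] {G : Type}
    [TopologicalSpace G] [ChartedSpace E G]

/-- The norm of a closed embedding is an exhaustion. -/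
theorem isExhaustion_norm {l : ℕ} {ι : G → Fin l → ℂ} (hι : IsClosedEmbedding ι) :
    IsExhaustion fun g => ‖ι g‖ := by
  refine ⟨hι.continuous.norm, fun g => norm_nonneg _, fun r => ?_⟩
  have h1 : {g | ‖ι g‖ ≤ r} = ι ⁻¹' closedBall 0 r := by
    ext g
    simp
  rw [h1]
  exact hι.isCompact_preimage (isCompact_closedBall _ _)

/-- The whole manifold is not tame. -/
theorem not_isTame_univ [Group G] (hS : IsStein E G) : ¬ IsTame E (univ : Set G) := by
  obtain ⟨l, ι, -, hι⟩ := hS
  intro h
  obtain ⟨φ, -, hφ⟩ := h _ (isExhaustion_norm hι) (fun _ => ‖ι 1‖ + 1)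
  have := hφ (φ.symm 1) (mem_univ _)
  rw [Equiv.apply_symm_apply] at this
  linarith

section Lie

variable [Group G] [LieGroup 𝓘(ℂ, E) ω G]

/-- A discrete subgroup meeting the identity component in a finite set is tame, if the dimension is
positive. -/
theorem isTame_of_finite (T : LieTools E G) (hS : IsStein E G) {X₀ : E} (hX₀ : X₀ ≠ 0)
    (Γ : Subgroup G) (hfin : ((Γ : Set G) ∩ connectedComponent (1 : G)).Finite) :
    IsTame E (Γ : Set G) := by
  classical
  have hTG : IsTopologicalGroup G := topologicalGroup_of_lieGroup 𝓘(ℂ, E) ω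
  have hLC : LocallyConnectedSpace G := ChartedSpace.locallyConnectedSpace E G
  obtain ⟨l, ι, hι, hιc⟩ := hS
  set x : ℂ → G := fun s => T.exp (s • X₀) with hx
  have hx1 : IsOneParam E x := T.isOneParam X₀
  have hxc : Continuous x := hx1.1.continuous
  obtain ⟨F, hFne, hF⟩ := exists_filter hx1.1 hx1.2 (T.exists_exp_ne_one X₀ hX₀) hι hιc.injective
  have hx0 : x 0 = 1 := by simp only [hx, zero_smul, T.exp_zero]
  intro ρ hρ ζ
  -- finitely many points in each component
  have hcomp : ∀ c : ConnectedComponents G, {g : G | g ∈ Γ ∧ (g : ConnectedComponents G) = c}.Finite := by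
    intro c
    by_cases hne : ∃ g₀ : G, g₀ ∈ Γ ∧ (g₀ : ConnectedComponents G) = c
    · obtain ⟨g₀, hg₀, hc⟩ := hne
      refine (hfin.image (fun g => g₀ * g)).subset ?_
      rintro g ⟨hg, hgc⟩
      refine ⟨g₀⁻¹ * g, ⟨Γ.mul_mem (Γ.inv_mem hg₀) hg, ?_⟩, by simp⟩
      have h1 : g ∈ connectedComponent g₀ := by
        rw [← hc] at hgc
        exact ConnectedComponents.coe_eq_coe'.mp hgc
      have h2 := (continuous_const_mul g₀⁻¹ : Continuous fun g => g₀⁻¹ * g).image_connectedComponent_subset g₀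
      have h3 := h2 ⟨g, h1, rfl⟩
      rwa [inv_mul_cancel] at h3
    · push Not at hne
      convert Set.finite_empty (α := G)
      ext g
      simp only [mem_ofPred_eq, mem_empty_iff_false, iff_false, not_and]
      exact hne g
  have hval : ∀ c : ConnectedComponents G, ∃ s : ℂ, ∀ g ∈ Γ, (g : ConnectedComponents G) = c →
      ζ g ≤ ρ (g * x s) := by
    intro c
    have hev : ∀ᶠ s in F, ∀ g ∈ (hcomp c).toFinset, g * x s ∉ {y | ρ y ≤ ζ g} := by
      rw [Finset.eventually_all]
      intro g _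
      have hK : IsCompact ((fun y => g⁻¹ * y) '' {y | ρ y ≤ ζ g}) :=
        (hρ.2.2 (ζ g)).image (continuous_const_mul _)
      filter_upwards [hF _ hK] with s hs hmem
      exact hs ⟨g * x s, hmem, by simp⟩
    obtain ⟨s, hs⟩ := hev.exists
    refine ⟨s, fun g hg hgc => ?_⟩
    have := hs g ((hcomp c).mem_toFinset.mpr ⟨hg, hgc⟩)
    simp only [mem_ofPred_eq, not_le] at this
    exact this.le
  choose A hA using hval
  have hq : ∀ (s : ℂ) (g : G), ((g * x s : G) : ConnectedComponents G) = (g : ConnectedComponents G) := by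
    intro s g
    have hc : Continuous fun s : ℂ => ((g * x s : G) : ConnectedComponents G) :=
      ConnectedComponents.continuous_coe.comp (continuous_const.mul hxc)
    have := (isPreconnected_univ (α := ℂ)).image _ hc.continuousOn
    have h2 := this.subsingleton ⟨s, mem_univ _, rfl⟩ ⟨0, mem_univ _, rfl⟩
    simp only [hx0, mul_one] at h2
    exact h2
  let φ : G ≃ G := flowEquiv (fun g : G => (g : ConnectedComponents G)) (fun s g => g * x s)
    (fun g => by rw [hx0, mul_one])
    (fun s t g => by rw [add_comm, hx1.2, mul_assoc]) hq A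
  have hol : ∀ B : ConnectedComponents G → ℂ,
      MDifferentiable 𝓘(ℂ, E) 𝓘(ℂ, E) (fun g : G => g * x (B (g : ConnectedComponents G))) := by
    intro B g₀
    have h1 : MDifferentiableAt 𝓘(ℂ, E) 𝓘(ℂ, E)
        (fun g : G => g * x (B (g₀ : ConnectedComponents G))) g₀ :=
      (mdiff_mul mdifferentiable_id mdifferentiable_const) g₀
    refine h1.congr_of_eventuallyEq ?_
    have hop : IsOpen (connectedComponent g₀) := isOpen_connectedComponent
    filter_upwards [hop.mem_nhds mem_connectedComponent] with g hg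
    rw [ConnectedComponents.coe_eq_coe'.mpr hg]
  refine ⟨φ, ⟨hol A, hol fun c => - A c⟩, ?_⟩
  intro g hg
  exact hA _ g hg rfl

/-- In dimension one a discrete subgroup with infinitely many elements in the identity component is
not tame. -/
theorem not_isTame_of_infinite [FiniteDimensional ℂ E] (T : LieTools E G) (hS : IsStein E G)
    (hdim : Module.finrank ℂ E = 1) (Γ : Subgroup G) [DiscreteTopology Γ]
    (hinf : ((Γ : Set G) ∩ connectedComponent (1 : G)).Infinite) :
    ¬ IsTame E (Γ : Set G) := by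
  classical
  have hTG : IsTopologicalGroup G := topologicalGroup_of_lieGroup 𝓘(ℂ, E) ω
  obtain ⟨l, ι, hι, hιc⟩ := hS
  have ht2 : T2Space G := hιc.isEmbedding.t2Space
  have hsc : SecondCountableTopology G := hιc.isEmbedding.secondCountableTopology
  obtain ⟨X₀, hX₀, hspan⟩ := finrank_eq_one_iff'.mp hdim
  have hab : ∀ X Y : E, T.br X Y = 0 := by
    intro X Y
    obtain ⟨a, rfl⟩ := hspan X
    obtain ⟨b, rfl⟩ := hspan Y
    rw [map_smul, map_smul, smul_apply, T.br_self, smul_zero, smul_zero]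
  obtain ⟨ξ, hξ⟩ := SeparatingDual.exists_eq_one (R := ℂ) hX₀
  have hξ' : ∀ Y : E, ξ Y • X₀ = Y := by
    intro Y
    obtain ⟨b, rfl⟩ := hspan Y
    rw [map_smul, hξ, smul_eq_mul, mul_one]
  set e : ℂ → G := fun s => T.exp (s • X₀) with he
  have he1 : IsOneParam E e := T.isOneParam X₀
  have hec : Continuous e := he1.1.continuous
  have he0 : e 0 = 1 := by simp only [he, zero_smul, T.exp_zero]
  have heneg : ∀ s, e (-s) = (e s)⁻¹ := by
    intro s
    simp only [he, neg_smul, T.exp_neg]
  -- the image of `e`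
  let H : Subgroup G :=
    { carrier := range e
      mul_mem' := by
        rintro _ _ ⟨s, rfl⟩ ⟨t, rfl⟩
        exact ⟨s + t, he1.2 s t⟩
      one_mem' := ⟨0, he0⟩
      inv_mem' := by
        rintro _ ⟨s, rfl⟩
        exact ⟨-s, heneg s⟩ }
  have hHo : IsOpen (H : Set G) := by
    refine Subgroup.isOpen_of_mem_nhds H (g := 1) (mem_of_superset (T.U_open.mem_nhds T.one_mem) ?_)
    intro g hg
    refine ⟨ξ (T.log g), ?_⟩
    simp only [he]
    rw [hξ', T.exp_log g hg]
  have hHc : IsClosed (H : Set G) := Subgroup.isClosed_of_isOpen H hHo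
  have hcomp : connectedComponent (1 : G) ⊆ range e :=
    IsClopen.connectedComponent_subset ⟨hHc, hHo⟩ H.one_mem
  -- countably many cosets
  obtain ⟨d, hd⟩ := TopologicalSpace.exists_dense_seq G
  have hcoset : ∀ b : G, ∃ (i : ℕ) (t : ℂ), b = d i * e t := by
    intro b
    have hop : IsOpen {g : G | g⁻¹ * b ∈ (H : Set G)} :=
      hHo.preimage (continuous_inv.mul continuous_const)
    obtain ⟨i, hi⟩ := hd.exists_mem_open hop
      ⟨b, by simp only [mem_ofPred_eq, inv_mul_cancel]; exact H.one_mem⟩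
    obtain ⟨t, ht⟩ := hi
    refine ⟨i, t, ?_⟩
    rw [ht, mul_inv_cancel_left]
  -- the compact sets
  set K : ℕ → Set G := fun n => ⋃ i ∈ Finset.range (n + 1),
    (fun s => d i * e s) '' closedBall (0 : ℂ) ((n : ℝ) + (n : ℝ) ^ n) with hK
  have hKc : ∀ n, IsCompact (K n) := by
    intro n
    refine (Finset.range (n + 1)).isCompact_biUnion fun i _ => ?_
    exact (isCompact_closedBall _ _).image (continuous_const.mul hec)
  have hN : ∀ n, ∃ N : ℝ, ∀ g ∈ K n, ‖ι g‖ ≤ N := by
    intro n
    obtain ⟨N, hN⟩ := ((hKc n).image hιc.continuous).isBounded.exists_norm_le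
    exact ⟨N, fun g hg => hN _ ⟨g, hg, rfl⟩⟩
  choose N hN using hN
  -- coordinates of the points
  have hσ : ∀ g : G, ∃ s : ℂ, (∃ t, e t = g) → e s = g := by
    intro g
    by_cases h : ∃ t, e t = g
    · obtain ⟨t, ht⟩ := h
      exact ⟨t, fun _ => ht⟩
    · exact ⟨0, fun h' => absurd h' h⟩
  choose σ hσ using hσ
  intro htame
  obtain ⟨φ, hφ, hφΓ⟩ := htame _ (isExhaustion_norm hιc) (fun g => N ⌈‖σ g‖⌉₊ + 1)
  set b : G := φ 1 with hb
  -- lifts
  have hF1 : MDifferentiable 𝓘(ℂ, ℂ) 𝓘(ℂ, E) fun s => b⁻¹ * φ (e s) :=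
    mdiff_mul mdifferentiable_const (hφ.1.comp he1.1)
  obtain ⟨Φ, hΦd, hΦ0, hΦ⟩ := T.exists_lift hab hF1 (by rw [he0, hb, inv_mul_cancel])
  have hF2 : MDifferentiable 𝓘(ℂ, ℂ) 𝓘(ℂ, E) fun s => φ.symm (b * e s) :=
    hφ.2.comp (mdiff_mul mdifferentiable_const he1.1)
  obtain ⟨Ψ, hΨd, hΨ0, hΨ⟩ := T.exists_lift hab hF2 (by
    rw [he0, mul_one, hb, Equiv.symm_apply_apply])
  set u : ℂ → ℂ := fun s => ξ (Φ s) with hu
  set v : ℂ → ℂ := fun s => ξ (Ψ s) with hv
  have hud : Differentiable ℂ u := ξ.differentiable.comp hΦd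
  have hvd : Differentiable ℂ v := ξ.differentiable.comp hΨd
  have hu0 : u 0 = 0 := by simp only [hu, hΦ0, map_zero]
  have hv0 : v 0 = 0 := by simp only [hv, hΨ0, map_zero]
  have heu : ∀ s, e (u s) = b⁻¹ * φ (e s) := by
    intro s
    simp only [he, hu]
    rw [hξ', hΦ]
  have hev : ∀ s, e (v s) = φ.symm (b * e s) := by
    intro s
    simp only [he, hv]
    rw [hξ', hΨ]
  have hfin : ∀ w : ℂ → ℂ, Differentiable ℂ w → w 0 = 0 → (∀ s, e (w s) = e s) → ∀ s, w s = s := by
    intro w hw hw0 h s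
    have h1 := T.lift_unique hab (Φ₁ := fun s => w s • X₀) (Φ₂ := fun s => s • X₀)
      (hw.continuous.smul continuous_const) (continuous_id.smul continuous_const)
      (by simp only [hw0]) h s
    exact smul_left_injective ℂ hX₀ h1
  have huv : ∀ s, u (v s) = s := by
    refine hfin (fun s => u (v s)) (hud.comp hvd) (by simp only [hv0, hu0]) fun s => ?_
    rw [heu, hev, Equiv.apply_symm_apply, inv_mul_cancel_left]
  have hvu : ∀ s, v (u s) = s := by
    refine hfin (fun s => v (u s)) (hvd.comp hud) (by simp only [hv0, hu0]) fun s => ?_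
    rw [hev, heu, mul_inv_cancel_left, Equiv.symm_apply_apply]
  obtain ⟨k, hk⟩ := exists_poly_growth hud hvd.continuous huv hvu hu0
  obtain ⟨R, -, hR⟩ := (hasBasis_cobounded_compl_closedBall (0 : ℂ)).eventually_iff.mp hk
  obtain ⟨i, t, hbt⟩ := hcoset b
  -- a point far out
  set M : ℝ := max (max R 0) (max (max (i : ℝ) (k : ℝ)) (max ‖t‖ 1)) with hM
  have hDfin : ((Γ : Set G) ∩ e '' closedBall 0 M).Finite := by
    have hcl : IsClosed (Γ : Set G) := Subgroup.isClosed_of_discrete
    have hcpt : IsCompact ((Γ : Set G) ∩ e '' closedBall 0 M) :=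
      ((isCompact_closedBall (0 : ℂ) M).image hec).inter_left hcl
    refine hcpt.finite ?_
    have hdisc : IsDiscrete (Γ : Set G) := ⟨inferInstance⟩
    exact hdisc.mono inter_subset_left
  obtain ⟨g, ⟨hgΓ, hgc⟩, hgn⟩ := (hinf.sdiff hDfin).nonempty
  have hσg : e (σ g) = g := hσ g (hcomp hgc)
  have hbig : M < ‖σ g‖ := by
    by_contra hcon
    push Not at hcon
    exact hgn ⟨hgΓ, σ g, by rwa [mem_closedBall_zero_iff], hσg⟩
  set n : ℕ := ⌈‖σ g‖⌉₊ with hn
  have hσn : ‖σ g‖ ≤ n := Nat.le_ceil _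
  have hMn : M < n := hbig.trans_le hσn
  have hRM : R ≤ M := (le_max_left _ _).trans (le_max_left _ _)
  have hiM : (i : ℝ) ≤ M := (le_max_left _ _).trans ((le_max_left _ _).trans (le_max_right _ _))
  have hkM : (k : ℝ) ≤ M := (le_max_right _ _).trans ((le_max_left _ _).trans (le_max_right _ _))
  have htM : ‖t‖ ≤ M := (le_max_left _ _).trans ((le_max_right _ _).trans (le_max_right _ _))
  have h1M : (1 : ℝ) ≤ M := (le_max_right _ _).trans ((le_max_right _ _).trans (le_max_right _ _))
  have hin : i < n + 1 := by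
    have : (i : ℝ) < n := hiM.trans_lt hMn
    have := Nat.cast_lt.mp this
    omega
  have hkn : k ≤ n := by
    have : (k : ℝ) < n := hkM.trans_lt hMn
    exact (Nat.cast_lt.mp this).le
  have h1n : (1 : ℝ) ≤ n := h1M.trans hMn.le
  have hgrow : ‖u (σ g)‖ ≤ (n : ℝ) ^ n := by
    have h1 : ‖u (σ g)‖ ≤ ‖σ g‖ ^ k := by
      apply hR
      rw [mem_compl_iff, mem_closedBall_zero_iff, not_le]
      exact hRM.trans_lt hbig
    refine h1.trans ((pow_le_pow_left₀ (norm_nonneg _) hσn k).trans ?_)
    exact pow_le_pow_right₀ h1n hkn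
  have hmem : φ g ∈ K n := by
    simp only [hK, mem_iUnion, Finset.mem_range]
    refine ⟨i, hin, t + u (σ g), ?_, ?_⟩
    · rw [mem_closedBall_zero_iff]
      exact (norm_add_le _ _).trans (add_le_add (htM.trans hMn.le) hgrow)
    · simp only
      rw [he1.2, ← mul_assoc, ← hbt, heu, mul_inv_cancel_left, hσg]
  have h1 := hN n _ hmem
  have h2 := hφΓ g hgΓ
  simp only [← hn] at h2
  linarith

omit [Group G] [LieGroup 𝓘(ℂ, E) ω G] in
/-- In dimension zero the topology is discrete. -/
theorem discreteTopology_of_finrank_zero [FiniteDimensional ℂ E]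
    (hdim : Module.finrank ℂ E = 0) : DiscreteTopology G := by
  have hsub : Subsingleton E := Module.finrank_zero_iff.mp hdim
  rw [discreteTopology_iff_isOpen_singleton]
  intro g
  have h1 : (chartAt E g).source = {g} := by
    ext y
    constructor
    · intro hy
      exact (chartAt E g).injOn hy (mem_chart_source E g) (Subsingleton.elim _ _)
    · rintro rfl
      exact mem_chart_source E y
  rw [← h1]
  exact (chartAt E g).open_source

/-- In dimension zero every infinite subgroup except the whole group is tame. -/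
theorem isTame_of_ne_top [FiniteDimensional ℂ E] (hS : IsStein E G)
    (hdim : Module.finrank ℂ E = 0) (Γ : Subgroup G) [Infinite Γ] (hΓ : Γ ≠ ⊤) :
    IsTame E (Γ : Set G) := by
  classical
  have hdt : DiscreteTopology G := discreteTopology_of_finrank_zero (E := E) hdim
  obtain ⟨l, ι, hι, hιc⟩ := hS
  have hsc : SecondCountableTopology G := hιc.isEmbedding.secondCountableTopology
  have hcount : Countable G := TopologicalSpace.separableSpace_iff_countable.mp inferInstance
  have hol : ∀ f : G → G, MDifferentiable 𝓘(ℂ, E) 𝓘(ℂ, E) f := by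
    intro f g
    refine (mdifferentiableAt_const (c := f g)).congr_of_eventuallyEq ?_
    have : {g} ∈ 𝓝 g := (isOpen_discrete {g}).mem_nhds rfl
    filter_upwards [this] with y hy
    rw [mem_singleton_iff.mp hy]
  intro ρ hρ ζ
  obtain ⟨a, ha⟩ : ∃ a, a ∉ Γ := by
    by_contra hcon
    push Not at hcon
    exact hΓ (Subgroup.eq_top_iff' Γ |>.mpr hcon)
  have hcinf : Infinite ((Γ : Set G)ᶜ : Set G) := by
    refine Infinite.of_injective (fun γ : Γ => (⟨a * γ, fun h => ha ?_⟩ : ((Γ : Set G)ᶜ : Set G)))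
      fun γ γ' h => ?_
    · have := Γ.mul_mem h (Γ.inv_mem γ.2)
      rwa [mul_inv_cancel_right] at this
    · have h1 : a * (γ : G) = a * γ' := congrArg Subtype.val h
      exact Subtype.ext (mul_left_cancel h1)
  obtain ⟨e⟩ : Nonempty (ℕ ≃ Γ) := nonempty_equiv_of_countable
  have hfin : ∀ r : ℝ, {n : ℕ | ρ (e n) < r}.Finite := by
    intro r
    have h1 : {g | ρ g ≤ r}.Finite := (hρ.2.2 r).finite ⟨inferInstance⟩
    have h2 : ((fun n => (e n : G)) ⁻¹' {g | ρ g ≤ r}).Finite :=
      h1.preimage (fun n _ m _ h => e.injective (Subtype.ext h))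
    exact h2.subset fun n (hn : ρ (e n) < r) => show ρ (e n) ≤ r from hn.le
  have hN : ∀ n : ℕ, ∃ N : ℕ, ∀ m, N ≤ m → ζ (e n) ≤ ρ (e m) := by
    intro n
    obtain ⟨N, hN⟩ := (hfin (ζ (e n))).bddAbove
    refine ⟨N + 1, fun m hm => ?_⟩
    by_contra hcon
    push Not at hcon
    have := hN (show m ∈ {n : ℕ | ρ (e n) < ζ (e _)} from hcon)
    omega
  choose N hN using hN
  set m : ℕ → ℕ := fun n => ∑ k ∈ Finset.range (n + 1), (N k + 1) with hm
  have hmono : StrictMono m := by
    refine strictMono_nat_of_lt_succ fun n => ?_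
    simp only [hm]
    rw [Finset.sum_range_succ _ (n + 1)]
    omega
  have hmN : ∀ n, N n ≤ m n := by
    intro n
    simp only [hm]
    rw [Finset.sum_range_succ]
    omega
  set f : Γ → G := fun γ => e (m (e.symm γ)) with hf
  have hfinj : Function.Injective f := by
    intro γ γ' h
    have h1 := e.injective (Subtype.ext h)
    exact e.symm.injective (hmono.injective h1)
  have hfval : ∀ γ : Γ, ζ γ ≤ ρ (f γ) := by
    intro γ
    have := hN (e.symm γ) (m (e.symm γ)) (hmN _)
    rwa [Equiv.apply_symm_apply] at this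
  have hrinf : Infinite ((range f)ᶜ : Set G) := by
    have hsub : (Γ : Set G)ᶜ ⊆ (range f)ᶜ := by
      apply compl_subset_compl.mpr
      rintro _ ⟨γ, rfl⟩
      exact (e _).2
    exact Infinite.of_injective _ (inclusion_injective hsub)
  obtain ⟨e2⟩ : Nonempty (((Γ : Set G)ᶜ : Set G) ≃ ((range f)ᶜ : Set G)) :=
    nonempty_equiv_of_countable
  let φ : G ≃ G := (Equiv.Set.sumCompl (Γ : Set G)).symm.trans
    ((Equiv.sumCongr (Equiv.ofInjective f hfinj) e2).trans (Equiv.Set.sumCompl (range f)))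
  refine ⟨φ, ⟨hol _, hol _⟩, ?_⟩
  intro g hg
  have h1 : φ g = f ⟨g, hg⟩ := by
    simp only [φ, Equiv.trans_apply]
    rw [Equiv.Set.sumCompl_symm_apply_of_mem hg]
    rfl
  rw [h1]
  exact hfval ⟨g, hg⟩

end Lie

end Pool.Agent.Work.MP_970e75_an.Full
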