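import Pool.Agent.Work.MP_970e75_an.Full.Main
import Pool.Agent.Work.MP_970e75_an.Full.LowDim

/-!
Infinite discrete subgroups of Stein complex Lie groups: tameness in all dimensions.
-/

set_option autoImplicit false

namespace Pool.Agent.Work.MP_970e75_an.Full

open Filter Topology Set
open scoped Manifold ContDiff Topology
open Pool.Agent.Work.MP_970e75_an.Gen

/-- The complete answer. -/
theorem isTame_iff (E : Type) [NormedAddCommGroup E] [NormedSpace ℂ E] [FiniteDimensional ℂ E]
    (G : Type) [TopologicalSpace G] [ChartedSpace E G] [Group G] [LieGroup 𝓘(ℂ, E) ω G]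
    (hS : IsStein E G) (Γ : Subgroup G) [DiscreteTopology Γ] [Infinite Γ] :
    IsTame E (Γ : Set G) ↔ 2 ≤ Module.finrank ℂ E ∨
      Module.finrank ℂ E = 1 ∧ ((Γ : Set G) ∩ connectedComponent (1 : G)).Finite ∨
      Module.finrank ℂ E = 0 ∧ Γ ≠ ⊤ := by
  have ht2 : T2Space G := by
    obtain ⟨l, ι, -, hι⟩ := hS
    exact hι.isEmbedding.t2Space
  obtain ⟨T⟩ := stmt_LX E G
  constructor
  · intro h
    rcases Nat.lt_or_ge (Module.finrank ℂ E) 2 with hlt | hge
    · right
      rcases Nat.lt_or_ge (Module.finrank ℂ E) 1 with h0 | h1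
      · right
        refine ⟨by omega, ?_⟩
        rintro rfl
        exact not_isTame_univ hS (by simpa using h)
      · left
        refine ⟨by omega, ?_⟩
        by_contra hcon
        exact not_isTame_of_infinite T hS (by omega) Γ hcon h
    · exact Or.inl hge
  · rintro (h | ⟨h, hfin⟩ | ⟨h, hne⟩)
    · exact stmt_Main E G h hS Γ inferInstance
    · obtain ⟨X₀, hX₀, -⟩ := finrank_eq_one_iff'.mp h
      exact isTame_of_finite T hS hX₀ Γ hfin
    · exact isTame_of_ne_top hS h Γ hne

end Pool.Agent.Work.MP_970e75_an.Full
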