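import Pool.Agent.Work.MP_970e75_an.Full.CR
import Pool.Agent.Work.MP_970e75_an_helper39.CMeas

/-!
The twisted left flow criteria (blocks CL and CM).
-/

set_option autoImplicit false
set_option linter.unusedSectionVars false

namespace Pool.Agent.Work.MP_970e75_an.Full

open Filter Topology Set MeasureTheory
open scoped Manifold ContDiff Topology Pointwise
open Pool.Agent.Work.MP_970e75_an Pool.Agent.Work.MP_970e75_an.Gen

section

variable {E : Type} [NormedAddCommGroup E] [NormedSpace ℂ E] {G : Type}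
    [TopologicalSpace G] [ChartedSpace E G] [Group G] [LieGroup 𝓘(ℂ, E) ω G]

/-- The common form of the left flow criteria. -/
theorem isTame_of_left (hS : IsStein E G) {W' : Type} [NormedAddCommGroup W'] [NormedSpace ℂ W']
    [FiniteDimensional ℂ W']
    (x z : ℂ → G) (hx : IsOneParam E x) (hz : IsOneParam E z) (hz1 : ∃ s, z s ≠ 1)
    (hxc : ∀ s, x s ∈ commutator G ∨ x s ∈ Subgroup.center G)
    (q' : G → W') (φ : G → ℂ) (b : G → G)
    (hq' : MDifferentiable 𝓘(ℂ, E) 𝓘(ℂ, W') q') (hφ : MDifferentiable 𝓘(ℂ, E) 𝓘(ℂ, ℂ) φ)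
    (hb : MDifferentiable 𝓘(ℂ, E) 𝓘(ℂ, E) b)
    (hq'z : ∀ g s, q' (g * z s) = q' g) (hφz : ∀ g s, φ (g * z s) = φ g)
    (hbz : ∀ g s, b (g * z s) = b g) (hbx : ∀ s g, b (x s * g) = b g * (x s)⁻¹)
    (hcomp : ∀ R : ℝ, ∃ (A : Set ℂ) (B : ℝ), IsCompact A ∧
      ∀ g, ‖q' g‖ ≤ R → (∃ s ∈ A, b g = (x s)⁻¹) ∧ ‖φ g‖ ≤ B)
    (hesc : ∀ M : ℝ, ∃ s, ∀ g, ‖q' g‖ ≤ M → M < ‖q' (x s * g)‖)
    (hcnt : ∀ g g', (b g = b g' ∧ ∀ s, φ (x s * g) = φ (x s * g')) ∨
      ∀ S : Set ℂ, S.Countable → {s | φ (x s * g) - φ (x s * g') ∈ S}.Countable)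
    (Γ : Subgroup G) [DiscreteTopology Γ] : IsTame E (Γ : Set G) := by
  obtain ⟨N, ι, hι, hιc⟩ := hS
  have hTG : IsTopologicalGroup G := topologicalGroup_of_lieGroup 𝓘(ℂ, E) ω
  have hsc : SecondCountableTopology G := hιc.isEmbedding.secondCountableTopology
  have hlc : LocallyCompactSpace G := hιc.locallyCompactSpace
  have ht2 : T2Space G := hιc.isEmbedding.t2Space
  have hσ : SigmaCompactSpace G := inferInstance
  let _ : MeasurableSpace G := borel G
  have hBG : BorelSpace G := ⟨rfl⟩
  set μ : Measure G := (Measure.haar : Measure G).inv with hμ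
  have hx0 := oneParam_zero hx.2
  have hz0 := oneParam_zero hz.2
  have hxC : Continuous x := hx.1.continuous
  have hzC : Continuous z := hz.1.continuous
  have hφC : Continuous φ := hφ.continuous
  have hbC : Continuous b := hb.continuous
  have hq'C : Continuous q' := hq'.continuous
  have hιC : Continuous ι := hι.continuous
  have hqc : Continuous fun g => ι (b g * g * z (φ g)) :=
    hιC.comp ((hbC.mul continuous_id).mul (hzC.comp hφC))
  have hleft : ∀ s, MeasurePreserving (fun g => x s * g) μ μ := fun s =>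
    measurePreserving_mul_left_inv _ (x s) (hxc s)
  have hreg : μ.OuterRegular := inferInstance
  -- the twisted flow
  let θ : ℂ → G → G := fun s g => x s * g * z (φ g - φ (x s * g))
  have hφx : ∀ s g, φ (θ s g) = φ (x s * g) := fun s g => hφz _ _
  have hθc : Continuous fun y : ℂ × G => θ y.1 y.2 := by
    have h1 : Continuous fun y : ℂ × G => x y.1 * y.2 :=
      (hxC.comp continuous_fst).mul continuous_snd
    exact h1.mul (hzC.comp ((hφC.comp continuous_snd).sub (hφC.comp h1)))
  have hθadd : ∀ s u g, θ (s + u) g = θ s (θ u g) := by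
    intro s u g
    have e1 : x s * θ u g = x (s + u) * g * z (φ g - φ (x u * g)) := by
      show x s * (x u * g * z (φ g - φ (x u * g))) = _
      rw [hx.2]
      simp only [mul_assoc]
    show x (s + u) * g * z (φ g - φ (x (s + u) * g)) =
      x s * θ u g * z (φ (θ u g) - φ (x s * θ u g))
    rw [hφx, e1, hφz, mul_assoc (x (s + u) * g), ← hz.2]
    congr 2
    ring
  have hθm : ∀ s, MeasurePreserving (θ s) μ μ := by
    intro s
    have h1 : MeasurePreserving (fun g => g * z (φ g - φ (x s * g))) μ μ := by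
      apply measurePreserving_twist μ z hzC hz.2 (fun g => φ g - φ (x s * g))
      · exact hφC.sub (hφC.comp (continuous_const.mul continuous_id))
      · intro g u
        rw [hφz, ← mul_assoc, hφz]
    have h2 := (hleft s).comp h1
    convert h2 using 1
    funext g
    show x s * g * z (φ g - φ (x s * g)) = x s * (g * z (φ g - φ (x s * g)))
    rw [mul_assoc]
  let F : FlowData G μ (Fin N → ℂ) :=
    { q := fun g => ι (b g * g * z (φ g))
      p := fun g => ‖q' g‖
      θ := θ
      q_cont := hqc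
      p_cont := hq'C.norm
      θ_cont := hθc
      θ_zero := fun g => by
        show x 0 * g * z (φ g - φ (x 0 * g)) = g
        rw [hx0, one_mul, sub_self, hz0, mul_one]
      θ_add := hθadd
      θ_meas := hθm
      q_inv := fun s g => by
        rw [hφx]
        have e1 : b (θ s g) = b g * (x s)⁻¹ := by
          show b (x s * g * z (φ g - φ (x s * g))) = _
          rw [hbz, hbx]
        rw [e1]
        congr 1
        show b g * (x s)⁻¹ * (x s * g * z (φ g - φ (x s * g))) * z (φ (x s * g)) = _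
        calc b g * (x s)⁻¹ * (x s * g * z (φ g - φ (x s * g))) * z (φ (x s * g)) =
            b g * g * (z (φ g - φ (x s * g)) * z (φ (x s * g))) := by group
          _ = b g * g * z (φ g) := by rw [← hz.2, sub_add_cancel]
      compact := fun R => by
        obtain ⟨A, B, hA, hAB⟩ := hcomp R
        have hK : IsCompact (ι ⁻¹' Metric.closedBall 0 R) :=
          hιc.isCompact_preimage (isCompact_closedBall _ _)
        have hcl : IsClosed {g : G | ‖ι (b g * g * z (φ g))‖ ≤ R ∧ ‖q' g‖ ≤ R} :=
          (isClosed_le hqc.norm continuous_const).inter (isClosed_le hq'C.norm continuous_const)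
        refine (((hA.image hxC).mul hK).mul
          ((isCompact_closedBall (0 : ℂ) B).image hzC)).of_isClosed_subset hcl ?_
        rintro g ⟨h1, h2⟩
        obtain ⟨⟨s, hs, hbs⟩, hB⟩ := hAB g h2
        refine ⟨x s * (b g * g * z (φ g)), ⟨x s, ⟨s, hs, rfl⟩, b g * g * z (φ g), ?_, rfl⟩,
          z (-φ g), ⟨-φ g, ?_, rfl⟩, ?_⟩
        · simpa using h1
        · simpa using hB
        · show x s * (b g * g * z (φ g)) * z (-φ g) = g
          rw [hbs]
          have : z (φ g) * z (-φ g) = 1 := by rw [← hz.2, add_neg_cancel, hz0]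
          calc x s * ((x s)⁻¹ * g * z (φ g)) * z (-φ g) = g * (z (φ g) * z (-φ g)) := by group
            _ = g := by rw [this, mul_one]
      escape := fun M => by
        obtain ⟨s, hs⟩ := hesc M
        refine ⟨0, s, ?_⟩
        intro g h1 h2
        exfalso
        have h3 : q' (θ s g) = q' (x s * g) := hq'z _ _
        have h2' : ‖q' (θ s g)‖ ≤ M := h2
        rw [h3] at h2'
        exact absurd h2' (not_le.mpr (hs g h1)) }
  have hcountΓ : Countable Γ := TopologicalSpace.separableSpace_iff_countable.mp inferInstance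
  obtain ⟨U, hU, hU1, hUdisj⟩ := exists_disjoint_nhd Γ
  obtain ⟨l, hl, hl2⟩ := exists_filter hz.1 hz.2 hz1 hι hιc.injective
  have hq : MDifferentiable 𝓘(ℂ, E) 𝓘(ℂ, Fin N → ℂ) F.q :=
    hι.comp (mdiff_mul (mdiff_mul hb mdifferentiable_id) (hz.1.comp hφ))
  refine isTame_of_flows (μ := μ) F q' (fun g => rfl) (fun s g => g * z s)
    (fun g => by rw [hz0, mul_one]) (fun s u g => by rw [mul_assoc, ← hz.2, add_comm])
    (fun s g => hq'z g s) l ?_ ?_ ?_ (Γ : Set G) (Set.to_countable _) ?_ U hU hU1 hUdisj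
  · intro g K hK
    have hK' : IsCompact ((fun y => g⁻¹ * y) '' K) :=
      hK.image (continuous_const.mul continuous_id)
    filter_upwards [hl2 _ hK'] with s hs hmem
    exact hs ⟨_, hmem, by simp⟩
  · intro f hf
    have hfq : MDifferentiable 𝓘(ℂ, E) 𝓘(ℂ, ℂ) fun g => f (F.q g) :=
      (mdifferentiable_iff_differentiable.mpr hf).comp hq
    have h1 : MDifferentiable 𝓘(ℂ, E) 𝓘(ℂ, E) fun g => x (f (F.q g)) * g :=
      mdiff_mul (hx.1.comp hfq) mdifferentiable_id
    exact mdiff_mul h1 (hz.1.comp (hφ.sub (hφ.comp h1)))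
  · intro h hh
    have hht : MDifferentiable 𝓘(ℂ, E) 𝓘(ℂ, ℂ) fun g => h (q' g) :=
      (mdifferentiable_iff_differentiable.mpr hh).comp hq'
    exact mdiff_mul mdifferentiable_id (hz.1.comp hht)
  · intro d hd d' hd' hne
    apply measure_zero_of_countable_times μ (fun s g => x s * g)
      ((hxC.comp continuous_fst).mul continuous_snd) hleft
    · exact isClosed_eq (F.q_cont.comp (continuous_mul_const d))
        (F.q_cont.comp (continuous_mul_const d'))
    · intro τ
      have hval : ∀ s g, F.q (x s * g) = ι (b g * g * z (φ (x s * g))) := by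
        intro s g
        show ι (b (x s * g) * (x s * g) * z (φ (x s * g))) = _
        rw [hbx]
        congr 1
        group
      rcases hcnt (τ * d) (τ * d') with ⟨h1, h2⟩ | h1
      · have : {s | x s * τ ∈ {τ : G | F.q (τ * d) = F.q (τ * d')}} = ∅ := by
          ext s
          simp only [mem_ofPred_eq, mem_empty_iff_false, iff_false]
          intro h3
          rw [mul_assoc, mul_assoc, hval, hval, h1, h2] at h3
          have h4 := hιc.injective h3
          exact hne (mul_left_cancel (mul_left_cancel (mul_right_cancel h4)))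
        rw [this]
        exact countable_empty
      · refine (h1 _ (countable_level hz.1 hz.2 hz1 hι hιc.injective
          ((b (τ * d) * (τ * d))⁻¹ * (b (τ * d') * (τ * d'))))).mono ?_
        intro s hs
        have hs' : F.q (x s * τ * d) = F.q (x s * τ * d') := hs
        rw [mul_assoc, mul_assoc, hval, hval] at hs'
        have h4 := hιc.injective hs'
        show z (φ (x s * (τ * d)) - φ (x s * (τ * d'))) = _
        rw [sub_eq_add_neg, hz.2, oneParam_neg hz.2, eq_inv_mul_iff_mul_eq, ← mul_assoc, h4,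
          mul_inv_cancel_right]

end

/-- Block CL. -/
theorem stmt_CL : Stmt_CL := by
  intro E _ _ _ G _ _ _ _ hS x z t hx hz ht hxc htx htz hz1 Γ hΓ
  have hx0 := oneParam_zero hx.2
  refine isTame_of_left hS x z hx hz hz1 hxc t (fun g => t g ^ 2) (fun g => x (-t g)) ht ?_ ?_ htz
    ?_ ?_ ?_ ?_ ?_ ?_ Γ
  · have h5 : Differentiable ℂ fun z : ℂ => z ^ 2 := by fun_prop
    exact (mdifferentiable_iff_differentiable.mpr h5).comp ht
  · exact hx.1.comp ht.neg
  · intro g s
    simp only [htz]
  · intro g s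
    simp only [htz]
  · intro s g
    rw [htx, ← oneParam_neg hx.2, ← hx.2]
    congr 1
    ring
  · intro R
    refine ⟨Metric.closedBall 0 R, R ^ 2, isCompact_closedBall _ _, ?_⟩
    intro g hg
    refine ⟨⟨t g, by simpa using hg, oneParam_neg hx.2 _⟩, ?_⟩
    rw [norm_pow]
    gcongr
  · intro M
    refine ⟨((2 * |M| + 1 : ℝ) : ℂ), ?_⟩
    intro g hg
    rw [htx]
    have h4 : ‖(((2 * |M| + 1 : ℝ) : ℂ))‖ = 2 * |M| + 1 := by
      rw [Complex.norm_real, Real.norm_eq_abs, abs_of_pos (by positivity)]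
    have h5 : ‖(((2 * |M| + 1 : ℝ) : ℂ))‖ ≤ ‖t g + (((2 * |M| + 1 : ℝ) : ℂ))‖ + ‖t g‖ := by
      have := norm_sub_le (t g + (((2 * |M| + 1 : ℝ) : ℂ))) (t g)
      rwa [add_sub_cancel_left] at this
    have h6 := le_abs_self M
    linarith
  · intro g g'
    by_cases h : t g = t g'
    · left
      refine ⟨by rw [h], fun s => ?_⟩
      simp only [htx, h]
    · right
      intro S hS'
      refine hS'.preimage_of_injOn (f := fun s : ℂ => t (x s * g) ^ 2 - t (x s * g') ^ 2) ?_
      intro s _ u _ hsu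
      simp only [htx] at hsu
      have h5 : 2 * (s - u) * (t g - t g') = 0 := by linear_combination hsu
      have h6 : t g - t g' ≠ 0 := sub_ne_zero.mpr h
      rcases mul_eq_zero.mp h5 with h7 | h7
      · rcases mul_eq_zero.mp h7 with h8 | h8
        · norm_num at h8
        · exact sub_eq_zero.mp h8
      · exact absurd h7 h6

/-- Block CM. -/
theorem stmt_CM : Stmt_CM := by
  intro E _ _ _ G _ _ _ _ hS x z t hx hz ht hxc hper ht0 htx htz hz1 Γ hΓ
  have hTG : IsTopologicalGroup G := topologicalGroup_of_lieGroup 𝓘(ℂ, E) ω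
  have hx0 := oneParam_zero hx.2
  have hxneg := oneParam_neg hx.2
  have hn : ∀ n : ℕ, x (n * (2 * Real.pi * Complex.I)) = 1 := by
    intro n
    induction n with
    | zero => simp [hx0]
    | succ n ih =>
      have : ((n + 1 : ℕ) : ℂ) * (2 * Real.pi * Complex.I) =
          n * (2 * Real.pi * Complex.I) + 2 * Real.pi * Complex.I := by push_cast; ring
      rw [this, hx.2, ih, hper, mul_one]
  have hi : ∀ n : ℤ, x (n * (2 * Real.pi * Complex.I)) = 1 := by
    intro n
    obtain ⟨m, rfl | rfl⟩ := n.eq_nat_or_neg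
    · exact_mod_cast hn m
    · have : ((-(m : ℤ) : ℤ) : ℂ) * (2 * Real.pi * Complex.I) =
        -(m * (2 * Real.pi * Complex.I)) := by push_cast; ring
      rw [this, hxneg, hn, inv_one]
  have hexp : ∀ s u : ℂ, Complex.exp s = Complex.exp u → x s = x u := by
    intro s u h
    obtain ⟨n, rfl⟩ := Complex.exp_eq_exp_iff_exists_int.mp h
    rw [hx.2, hi, mul_one]
  have hlog : ∀ g, Complex.exp (Complex.log (t g)) = t g := fun g => Complex.exp_log (ht0 g)
  have htinv : MDifferentiable 𝓘(ℂ, E) 𝓘(ℂ, ℂ) fun g => (t g)⁻¹ := by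
    intro g
    have h5 : DifferentiableAt ℂ (fun z : ℂ => z⁻¹) (t g) := differentiableAt_inv (ht0 g)
    exact (mdifferentiableAt_iff_differentiableAt.mpr h5).comp g (ht g)
  have hb : MDifferentiable 𝓘(ℂ, E) 𝓘(ℂ, E) fun g => x (-Complex.log (t g)) := by
    intro g₀
    have h1 : (fun g => x (-Complex.log (t g))) =
        fun g => x (-Complex.log (t g / t g₀)) * x (-Complex.log (t g₀)) := by
      funext g
      rw [← hx.2]
      apply hexp
      rw [Complex.exp_add, Complex.exp_neg, Complex.exp_neg, Complex.exp_neg, hlog, hlog,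
        Complex.exp_log (div_ne_zero (ht0 g) (ht0 g₀))]
      have := ht0 g
      have := ht0 g₀
      field_simp
    rw [h1]
    have h2 : DifferentiableAt ℂ (fun w : ℂ => -Complex.log (w / t g₀)) (t g₀) := by
      apply DifferentiableAt.neg
      apply DifferentiableAt.clog
      · exact differentiableAt_id.div_const _
      · rw [div_self (ht0 g₀)]
        exact Complex.one_mem_slitPlane
    have h3 : MDifferentiableAt 𝓘(ℂ, E) 𝓘(ℂ, ℂ) (fun g => -Complex.log (t g / t g₀)) g₀ :=
      (mdifferentiableAt_iff_differentiableAt.mpr h2).comp g₀ (ht g₀)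
    have h4 : MDifferentiableAt 𝓘(ℂ, E) 𝓘(ℂ, E) (fun g => x (-Complex.log (t g / t g₀))) g₀ :=
      (hx.1 _).comp g₀ h3
    have h5 : MDifferentiable 𝓘(ℂ, E) 𝓘(ℂ, E) fun y : G => y * x (-Complex.log (t g₀)) :=
      mdiff_mul mdifferentiable_id mdifferentiable_const
    exact (h5 _).comp g₀ h4
  refine isTame_of_left hS x z hx hz hz1 hxc (fun g => (t g, (t g)⁻¹)) t
    (fun g => x (-Complex.log (t g))) (ht.prodMk_space htinv) ht hb ?_ htz
    ?_ ?_ ?_ ?_ ?_ Γ
  · intro g s
    simp only [htz]
  · intro g s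
    simp only [htz]
  · intro s g
    rw [htx, ← hxneg, ← hx.2]
    apply hexp
    rw [Complex.exp_neg, Complex.exp_log (mul_ne_zero (Complex.exp_ne_zero s) (ht0 g)),
      Complex.exp_add, Complex.exp_neg, Complex.exp_neg, hlog, mul_inv]
    ring
  · intro R
    refine ⟨(fun p : ℝ × ℝ => (p.1 + p.2 * Complex.I : ℂ)) ''
      (Icc (-Real.log R) (Real.log R) ×ˢ Icc (-Real.pi) Real.pi), R, ?_, ?_⟩
    · apply (isCompact_Icc.prod isCompact_Icc).image
      fun_prop
    · intro g hg
      have h1 : ‖t g‖ ≤ R := (norm_fst_le _).trans hg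
      have h2 : ‖(t g)⁻¹‖ ≤ R := (norm_snd_le (t g, (t g)⁻¹)).trans hg
      have h3 : 0 < ‖t g‖ := norm_pos_iff.mpr (ht0 g)
      refine ⟨⟨Complex.log (t g), ⟨((Complex.log (t g)).re, (Complex.log (t g)).im), ⟨?_, ?_⟩,
        Complex.re_add_im _⟩, hxneg _⟩, h1⟩
      · rw [Complex.log_re]
        constructor
        · have h4 : Real.log ‖(t g)⁻¹‖ ≤ Real.log R := Real.log_le_log (by
            rw [norm_inv]; positivity) h2
          rw [norm_inv, Real.log_inv] at h4
          linarith
        · exact Real.log_le_log h3 h1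
      · exact ⟨(Complex.neg_pi_lt_log_im _).le, Complex.log_im_le_pi _⟩
  · intro M
    refine ⟨((Real.log (M ^ 2 + 1) : ℝ) : ℂ), ?_⟩
    intro g hg
    have a1 : Complex.exp ((Real.log (M ^ 2 + 1) : ℝ) : ℂ) = ((M ^ 2 + 1 : ℝ) : ℂ) := by
      rw [← Complex.ofReal_exp, Real.exp_log (by positivity)]
    have hz1 : ‖t g‖ ≤ M := (norm_fst_le _).trans hg
    have hz2 : ‖(t g)⁻¹‖ ≤ M := (norm_snd_le (t g, (t g)⁻¹)).trans hg
    have hpos : 0 < ‖t g‖ := norm_pos_iff.mpr (ht0 g)
    have hM : 0 < M := hpos.trans_le hz1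
    have hz3 : ‖t g‖ * ‖(t g)⁻¹‖ = 1 := by
      rw [← norm_mul, mul_inv_cancel₀ (ht0 g), norm_one]
    have hz4 : 1 ≤ ‖t g‖ * M := by
      rw [← hz3]; gcongr
    refine lt_of_lt_of_le ?_ (norm_fst_le _)
    show M < ‖t (x ((Real.log (M ^ 2 + 1) : ℝ) : ℂ) * g)‖
    rw [htx, a1, norm_mul, Complex.norm_real, Real.norm_eq_abs, abs_of_pos (by positivity)]
    have a2 : M * (‖t g‖ * M) < (M ^ 2 + 1) * ‖t g‖ := by nlinarith
    have a3 : M * 1 ≤ M * (‖t g‖ * M) := by gcongr
    linarith
  · intro g g'
    by_cases h : t g = t g'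
    · left
      refine ⟨by simp only [h], fun s => ?_⟩
      rw [htx, htx, h]
    · right
      intro S hS'
      -- `s ↦ exp s (t g - t g')` is countable to one
      have h6 : t g - t g' ≠ 0 := sub_ne_zero.mpr h
      have h7 : {s | t (x s * g) - t (x s * g') ∈ S} =
          ⋃ w ∈ S, {s : ℂ | Complex.exp s = w / (t g - t g')} := by
        ext s
        simp only [mem_ofPred_eq, mem_iUnion, exists_prop, htx]
        constructor
        · intro h8
          refine ⟨_, h8, ?_⟩
          rw [eq_div_iff h6]; ring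
        · rintro ⟨w, hw, h8⟩
          rw [eq_div_iff h6] at h8
          have : Complex.exp s * t g - Complex.exp s * t g' = w := by rw [← h8]; ring
          rw [this]; exact hw
      rw [h7]
      refine hS'.biUnion fun w _ => ?_
      rcases Set.eq_empty_or_nonempty {s : ℂ | Complex.exp s = w / (t g - t g')} with h8 | ⟨u, hu⟩
      · rw [h8]; exact countable_empty
      · refine (countable_range fun n : ℤ => u + n * (2 * Real.pi * Complex.I)).mono ?_
        intro s hs
        have hs' : Complex.exp s = Complex.exp u := hs.trans hu.symm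
        obtain ⟨n, rfl⟩ := Complex.exp_eq_exp_iff_exists_int.mp hs'
        exact ⟨n, rfl⟩

end Pool.Agent.Work.MP_970e75_an.Full
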