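import Pool.Agent.Work.MP_970e75_an.Full.Interface
import Pool.Agent.Work.MP_970e75_an.Gen.ExtTame
import Pool.Agent.Work.MP_970e75_an.Gen.OneParam

/-!
The right flow criterion.
-/

set_option autoImplicit false
set_option linter.unusedSectionVars false

namespace Pool.Agent.Work.MP_970e75_an.Full

open Filter Topology Set MeasureTheory
open scoped Manifold ContDiff Topology
open Pool.Agent.Work.MP_970e75_an Pool.Agent.Work.MP_970e75_an.Gen

section

variable {E : Type} [NormedAddCommGroup E] [NormedSpace ℂ E] {G : Type}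
    [TopologicalSpace G] [ChartedSpace E G] [Group G]

theorem oneParam_zero {x : ℂ → G} (hx : ∀ s t, x (s + t) = x s * x t) : x 0 = 1 := by
  have h := hx 0 0
  rw [add_zero] at h
  exact (mul_eq_left.mp h.symm)

theorem oneParam_neg {x : ℂ → G} (hx : ∀ s t, x (s + t) = x s * x t) (s : ℂ) :
    x (-s) = (x s)⁻¹ := by
  rw [eq_inv_iff_mul_eq_one, ← hx, neg_add_cancel, oneParam_zero hx]

variable [LieGroup 𝓘(ℂ, E) ω G]

/-- The criterion when the flow lines through the identity miss the group. -/
theorem isTame_of_right (hS : IsStein E G) (x z : ℂ → G) (t : G → ℂ) (hx : IsOneParam E x)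
    (hz : IsOneParam E z) (ht : MDifferentiable 𝓘(ℂ, E) 𝓘(ℂ, ℂ) t)
    (htx : ∀ g s, t (g * x s) = t g + s) (htz : ∀ s g, t (z s * g) = t g) (hz1 : ∃ s, z s ≠ 1)
    (Γ : Subgroup G) [DiscreteTopology Γ] (hΓ : ∀ s, x s ∈ Γ → x s = 1) :
    IsTame E (Γ : Set G) := by
  obtain ⟨N, ι, hι, hιc⟩ := hS
  have hTG : IsTopologicalGroup G := topologicalGroup_of_lieGroup 𝓘(ℂ, E) ω
  have hsc : SecondCountableTopology G := hιc.isEmbedding.secondCountableTopology
  have hlc : LocallyCompactSpace G := hιc.locallyCompactSpace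
  have ht2 : T2Space G := hιc.isEmbedding.t2Space
  let _ : MeasurableSpace G := borel G
  have hBG : BorelSpace G := ⟨rfl⟩
  set μ : Measure G := (Measure.haar : Measure G).inv with hμ
  have hx0 := oneParam_zero hx.2
  have hz0 := oneParam_zero hz.2
  have hxc : Continuous x := hx.1.continuous
  have hzc : Continuous z := hz.1.continuous
  have htc : Continuous t := ht.continuous
  have hιC : Continuous ι := hι.continuous
  have hqc : Continuous fun g => ι (g * x (-t g)) :=
    hιC.comp (continuous_id.mul (hxc.comp htc.neg))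
  have htx' : ∀ g, t (g * x (-t g)) = 0 := fun g => by rw [htx, add_neg_cancel]
  have hcancel : ∀ g (s : ℂ), g * x s * x (-s) = g := fun g s => by
    rw [mul_assoc, ← hx.2, add_neg_cancel, hx0, mul_one]
  have hcancel' : ∀ g (s : ℂ), g * x (-s) * x s = g := fun g s => by
    rw [mul_assoc, ← hx.2, neg_add_cancel, hx0, mul_one]
  let F : FlowData G μ (Fin N → ℂ) :=
    { q := fun g => ι (g * x (-t g))
      p := fun g => ‖t g‖
      θ := fun s g => g * x s
      q_cont := hqc
      p_cont := htc.norm
      θ_cont := continuous_snd.mul (hxc.comp continuous_fst)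
      θ_zero := fun g => by rw [hx0, mul_one]
      θ_add := fun s u g => by rw [mul_assoc, ← hx.2, add_comm]
      θ_meas := fun s => measurePreserving_mul_right μ (x s)
      q_inv := fun s g => by
        rw [htx, mul_assoc, ← hx.2]
        congr 3
        ring
      compact := fun R => by
        have hK : IsCompact {y : G | ‖ι y‖ ≤ R ∧ t y = 0} := by
          have h1 : IsCompact (ι ⁻¹' Metric.closedBall 0 R) :=
            hιc.isCompact_preimage (isCompact_closedBall _ _)
          have h2 : IsClosed {y : G | t y = 0} := isClosed_eq htc continuous_const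
          convert h1.inter_right h2 using 1
          ext y
          simp
        have hc : Continuous fun y : G × ℂ => y.1 * x y.2 :=
          continuous_fst.mul (hxc.comp continuous_snd)
        convert (hK.prod (isCompact_closedBall (0 : ℂ) R)).image hc using 1
        ext g
        constructor
        · rintro ⟨h1, h2⟩
          exact ⟨(g * x (-t g), t g), ⟨⟨h1, htx' g⟩, by simpa using h2⟩, hcancel' g (t g)⟩
        · rintro ⟨⟨y, s⟩, ⟨⟨h1, h2⟩, h3⟩, rfl⟩
          simp only at h1 h2 h3 ⊢
          have h4 : t (y * x s) = s := by rw [htx, h2, zero_add]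
          constructor
          · show ‖ι (y * x s * x (-t (y * x s)))‖ ≤ R
            rw [h4, hcancel]
            exact h1
          · show ‖t (y * x s)‖ ≤ R
            rw [h4]
            simpa using h3
      escape := fun M => by
        refine ⟨0, ((2 * |M| + 1 : ℝ) : ℂ), ?_⟩
        intro g h1 h2
        exfalso
        have h1' : ‖t g‖ ≤ M := h1
        have h2' : ‖t (g * x ((2 * |M| + 1 : ℝ) : ℂ))‖ ≤ M := h2
        rw [htx] at h2'
        have h4 : ‖(((2 * |M| + 1 : ℝ) : ℂ))‖ = 2 * |M| + 1 := by
          rw [Complex.norm_real, Real.norm_eq_abs, abs_of_pos (by positivity)]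
        have h5 : ‖(((2 * |M| + 1 : ℝ) : ℂ))‖ ≤ ‖t g + (((2 * |M| + 1 : ℝ) : ℂ))‖ + ‖t g‖ := by
          have := norm_sub_le (t g + (((2 * |M| + 1 : ℝ) : ℂ))) (t g)
          rwa [add_sub_cancel_left] at this
        have h6 := le_abs_self M
        linarith }
  have hcountΓ : Countable Γ := TopologicalSpace.separableSpace_iff_countable.mp inferInstance
  obtain ⟨U, hU, hU1, hUdisj⟩ := exists_disjoint_nhd Γ
  obtain ⟨l, hl, hl2⟩ := exists_filter hz.1 hz.2 hz1 hι hιc.injective
  have hq : MDifferentiable 𝓘(ℂ, E) 𝓘(ℂ, Fin N → ℂ) F.q :=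
    hι.comp (mdiff_mul mdifferentiable_id (hx.1.comp ht.neg))
  refine isTame_of_flows (μ := μ) F t (fun g => rfl) (fun s g => z s * g)
    (fun g => by rw [hz0, one_mul]) (fun s u g => by rw [hz.2, mul_assoc])
    (fun s g => htz s g) l ?_ ?_ ?_ (Γ : Set G) (Set.to_countable _) ?_ U hU hU1 hUdisj
  · intro g K hK
    have hK' : IsCompact ((fun y => y * g⁻¹) '' K) :=
      hK.image (continuous_id.mul continuous_const)
    filter_upwards [hl2 _ hK'] with s hs hmem
    exact hs ⟨_, hmem, by simp⟩
  · intro f hf
    have hfq : MDifferentiable 𝓘(ℂ, E) 𝓘(ℂ, ℂ) fun g => f (F.q g) :=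
      (mdifferentiable_iff_differentiable.mpr hf).comp hq
    exact mdiff_mul mdifferentiable_id (hx.1.comp hfq)
  · intro h hh
    have hht : MDifferentiable 𝓘(ℂ, E) 𝓘(ℂ, ℂ) fun g => h (t g) :=
      (mdifferentiable_iff_differentiable.mpr hh).comp ht
    exact mdiff_mul (hz.1.comp hht) mdifferentiable_id
  · intro d hd d' hd' hne
    have : {τ : G | F.q (τ * d) = F.q (τ * d')} = ∅ := by
      ext τ
      simp only [mem_ofPred_eq, mem_empty_iff_false, iff_false]
      intro h
      have h1 : τ * d * x (-t (τ * d)) = τ * d' * x (-t (τ * d')) := hιc.injective h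
      rw [mul_assoc, mul_assoc] at h1
      have h2 := mul_left_cancel h1
      have h3 : d'⁻¹ * d = x (-t (τ * d') + t (τ * d)) := by
        rw [hx.2, inv_mul_eq_iff_eq_mul, ← mul_assoc, ← h2, mul_assoc, ← hx.2, neg_add_cancel,
          hx0, mul_one]
      have h4 : d'⁻¹ * d ∈ Γ := Γ.mul_mem (Γ.inv_mem hd') hd
      rw [h3] at h4
      have h5 := hΓ _ h4
      rw [← h3] at h5
      exact hne (inv_mul_eq_one.mp h5).symm
    rw [this, measure_empty]

end

/-- Block CR. -/
theorem stmt_CR : Stmt_CR := by
  intro E _ _ _ G _ _ _ _ hS x v z t hx hv hz ht hcomm htx htv htz hv1 hz1 Γ hΓ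
  obtain ⟨N, ι, hι, hιc⟩ := id hS
  have hx0 := oneParam_zero hx.2
  have hv0 := oneParam_zero hv.2
  have hsc : SecondCountableTopology G := hιc.isEmbedding.secondCountableTopology
  have hcountΓ : Countable Γ := TopologicalSpace.separableSpace_iff_countable.mp inferInstance
  -- the bad directions
  let bad : G → Set ℂ := fun γ => {c : ℂ | γ ≠ 1 ∧
    ∃ s, x s * v (c * s) = γ}
  have hbad : ∀ γ, (bad γ).Countable := by
    intro γ
    by_cases hs0 : t γ - t 1 = 0
    · have : bad γ = ∅ := by
        ext c
        simp only [bad, mem_ofPred_eq, mem_empty_iff_false, iff_false, not_and]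
        rintro hγ ⟨s, hs⟩
        have h1 : t γ = t 1 + s := by
          rw [← hs, htv]
          have := htx 1 s
          rwa [one_mul] at this
        have h2 : s = 0 := by linear_combination hs0 - h1
        rw [h2, mul_zero, hx0, hv0, mul_one] at hs
        exact hγ hs.symm
      rw [this]
      exact countable_empty
    · have h3 := countable_level hv.1 hv.2 hv1 hι hιc.injective ((x (t γ - t 1))⁻¹ * γ)
      refine (h3.preimage_of_injOn (f := fun c : ℂ => c * (t γ - t 1)) ?_).mono ?_
      · intro a _ b _ hab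
        exact mul_right_cancel₀ hs0 hab
      · rintro c ⟨hγ, s, hs⟩
        have h1 : t γ = t 1 + s := by
          rw [← hs, htv]
          have := htx 1 s
          rwa [one_mul] at this
        have h2 : s = t γ - t 1 := by linear_combination -h1
        show v (c * (t γ - t 1)) = (x (t γ - t 1))⁻¹ * γ
        rw [← h2, ← hs, inv_mul_cancel_left]
  have hcount : (⋃ γ : Γ, bad γ.1).Countable := Set.countable_iUnion fun γ => hbad γ.1
  obtain ⟨c, hc⟩ : ∃ c, c ∉ ⋃ γ : Γ, bad γ.1 := by
    by_contra hcon
    push Not at hcon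
    have : (univ : Set ℂ).Countable := hcount.mono fun c _ => hcon c
    exact not_countable_complex this
  refine isTame_of_right hS (fun s => x s * v (c * s)) z t ⟨?_, ?_⟩ hz ht ?_ htz hz1 Γ ?_
  · refine mdiff_mul hx.1 (hv.1.comp ?_)
    exact mdifferentiable_iff_differentiable.mpr (by fun_prop)
  · intro s u
    show x (s + u) * v (c * (s + u)) = x s * v (c * s) * (x u * v (c * u))
    rw [hx.2, mul_add, hv.2, mul_assoc, mul_assoc, ← mul_assoc (x u), hcomm u (c * s),
      mul_assoc (v (c * s))]
  · intro g s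
    show t (g * (x s * v (c * s))) = t g + s
    rw [← mul_assoc, htv, htx]
  · intro s hs
    by_contra hne
    apply hc
    exact mem_iUnion.mpr ⟨⟨_, hs⟩, hne, s, rfl⟩

end Pool.Agent.Work.MP_970e75_an.Full
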