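import Pool.Agent.Work.MP_970e75_an.Full.NS
import Pool.Agent.Work.MP_970e75_an.Gen.Open

/-!
Assembly of the final theorem.
-/

set_option autoImplicit false

namespace Pool.Agent.Work.MP_970e75_an.Full

open Filter Topology Set
open scoped Manifold ContDiff Topology
open Pool.Agent.Work.MP_970e75_an Pool.Agent.Work.MP_970e75_an.Gen

theorem stmt_Main_of (hLX : Stmt_LX) (hG0 : Stmt_G0) (hA2 : Stmt_A2) (hSV : Stmt_SV)
    (hAB : Stmt_AB) (hNS : Stmt_NS) : Stmt_Main := by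
  intro E _ _ _ G _ _ _ _ hdim hS Γ hΓ
  obtain ⟨N, ι, hι, hιc⟩ := id hS
  have hTG : IsTopologicalGroup G := topologicalGroup_of_lieGroup 𝓘(ℂ, E) ω
  have ht2 : T2Space G := hιc.isEmbedding.t2Space
  obtain ⟨G₀, _, _, _, _, j, k, hconn, hj, hj1, hk, hk1⟩ := hG0 E G
  refine isTame_of_open j hj hj1 k hk hk1 (fun Γ₀ hΓ₀ => ?_) Γ
  have hopen : IsOpen (j.range : Set G) := by
    rw [MonoidHom.coe_range]; exact hj.isOpen_range
  have hclosed : IsClosed (j.range : Set G) := Subgroup.isClosed_of_isOpen _ hopen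
  have hcl : IsClosedEmbedding j := ⟨hj.isEmbedding, by
    rw [← MonoidHom.coe_range]; exact hclosed⟩
  have hS₀ : IsStein E G₀ := ⟨N, fun g => ι (j g), hι.comp hj1, hιc.comp hcl⟩
  have ht2' : T2Space G₀ := hj.isEmbedding.t2Space
  obtain ⟨T⟩ := hLX E G₀
  by_cases hsol : LieAlgebra.IsSolvable T.LieAlg
  · by_cases hab : ∀ X Y : E, T.br X Y = 0
    · exact hAB E G₀ T hS₀ hdim hab Γ₀ hΓ₀
    · push Not at hab
      exact hSV E G₀ T hS₀ hab Γ₀ hΓ₀
  · exact hNS E G₀ T hS₀ (hA2 T.LieAlg hsol) Γ₀ hΓ₀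

end Pool.Agent.Work.MP_970e75_an.Full
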