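import Mathlib

/-!
Entire automorphisms of `ℂ` have polynomial growth; entire functions have primitives.
-/

set_option autoImplicit false

namespace Pool.Agent.Work.MP_970e75_an.Full

open Filter Topology Set Metric

/-- An entire function with an entire (or merely continuous) inverse has polynomial growth. -/
theorem exists_poly_growth {Φ Ψ : ℂ → ℂ} (hΦ : Differentiable ℂ Φ) (hΨ : Continuous Ψ)
    (h1 : ∀ s, Φ (Ψ s) = s) (h2 : ∀ s, Ψ (Φ s) = s) (h0 : Φ 0 = 0) :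
    ∃ k : ℕ, ∀ᶠ s in Bornology.cobounded ℂ, ‖Φ s‖ ≤ ‖s‖ ^ k := by
  classical
  let e : ℂ ≃ₜ ℂ := ⟨⟨Φ, Ψ, h2, h1⟩, hΦ.continuous, hΨ⟩
  have hcob : Tendsto Φ (Bornology.cobounded ℂ) (Bornology.cobounded ℂ) := by
    have := e.isClosedEmbedding.tendsto_cocompact
    rwa [← Metric.cobounded_eq_cocompact] at this
  have hinj : Function.Injective Φ := fun a b h => by rw [← h2 a, h, h2]
  set g : ℂ → ℂ := fun w => if w = 0 then 0 else (Φ w⁻¹)⁻¹ with hg
  have hgne : ∀ w : ℂ, w ≠ 0 → g w ≠ 0 := by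
    intro w hw
    simp only [hg, if_neg hw]
    refine inv_ne_zero fun h => ?_
    rw [← h0] at h
    exact (inv_ne_zero hw) (hinj h)
  have hcont : ContinuousAt g 0 := by
    rw [continuousAt_iff_punctured_nhds]
    have h3 : Tendsto (fun w : ℂ => (Φ w⁻¹)⁻¹) (𝓝[≠] 0) (𝓝 0) :=
      tendsto_inv₀_cobounded.comp (hcob.comp tendsto_inv₀_nhdsNE_zero)
    have h4 : g 0 = 0 := by simp [hg]
    rw [h4]
    refine h3.congr' ?_
    filter_upwards [self_mem_nhdsWithin] with w hw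
    simp only [hg, if_neg (show w ≠ 0 from hw)]
  have hdiff : DifferentiableOn ℂ g ({0}ᶜ : Set ℂ) := by
    intro w hw
    have hw' : w ≠ 0 := hw
    have hne : Φ w⁻¹ ≠ 0 := by
      intro h
      rw [← h0] at h
      exact (inv_ne_zero hw') (hinj h)
    have h3 : DifferentiableAt ℂ (fun w : ℂ => (Φ w⁻¹)⁻¹) w :=
      ((hΦ _).comp w (differentiableAt_inv hw')).inv hne
    refine (h3.congr_of_eventuallyEq ?_).differentiableWithinAt
    filter_upwards [isOpen_compl_singleton.mem_nhds hw'] with v hv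
    simp only [hg, if_neg (show v ≠ 0 from hv)]
  have hd : DifferentiableOn ℂ g univ := by
    rw [← Complex.differentiableOn_compl_singleton_and_continuousAt_iff (univ_mem : univ ∈ 𝓝 (0 : ℂ))]
    refine ⟨?_, hcont⟩
    rwa [← Set.compl_eq_univ_sdiff]
  have han : AnalyticAt ℂ g 0 := hd.analyticAt univ_mem
  have hnz : ¬ ∀ᶠ w in 𝓝 (0 : ℂ), g w = 0 := by
    intro h
    have h3 : ∀ᶠ w in 𝓝[≠] (0 : ℂ), g w = 0 := h.filter_mono nhdsWithin_le_nhds
    have h4 : ∀ᶠ w in 𝓝[≠] (0 : ℂ), w ≠ 0 := self_mem_nhdsWithin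
    obtain ⟨w, hw1, hw2⟩ := (h3.and h4).exists
    exact hgne w hw2 hw1
  obtain ⟨n, u, hu, hu0, hgu⟩ := han.exists_eventuallyEq_pow_smul_nonzero_iff.mpr hnz
  -- `|u| ≥ c` near zero
  set c : ℝ := ‖u 0‖ / 2 with hc
  have hcpos : 0 < c := by
    have := norm_pos_iff.mpr hu0
    positivity
  have huc : ∀ᶠ w in 𝓝 (0 : ℂ), c < ‖u w‖ :=
    hu.continuousAt.norm.eventually_const_lt (by simp only [hc]; linarith [norm_pos_iff.mpr hu0])
  refine ⟨n + 1, ?_⟩
  have h5 : ∀ᶠ w in 𝓝[≠] (0 : ℂ), ‖w‖ < c ∧ c < ‖u w‖ ∧ g w = (w - 0) ^ n • u w := by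
    have hn : ∀ᶠ w in 𝓝 (0 : ℂ), ‖w‖ < c := by
      have : ContinuousAt (fun w : ℂ => ‖w‖) 0 := continuous_norm.continuousAt
      exact this.eventually_lt_const (by simpa using hcpos)
    exact ((hn.and (huc.and hgu)).filter_mono nhdsWithin_le_nhds)
  have h6 := tendsto_inv₀_cobounded' (α := ℂ) |>.eventually h5
  have h7 : ∀ᶠ s : ℂ in Bornology.cobounded ℂ, s ≠ 0 := by
    filter_upwards [(tendsto_norm_cobounded_atTop (E := ℂ)).eventually_gt_atTop 0] with s hs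
    exact norm_pos_iff.mp hs
  filter_upwards [h6, h7] with s hs hs0
  obtain ⟨ha, hb, hgs⟩ := hs
  have hsi : s⁻¹ ≠ 0 := inv_ne_zero hs0
  simp only [hg, if_neg hsi, inv_inv, sub_zero, smul_eq_mul] at hgs
  have hn1 : ‖Φ s‖⁻¹ = (‖s‖⁻¹) ^ n * ‖u s⁻¹‖ := by
    rw [← norm_inv, hgs, norm_mul, norm_pow, norm_inv]
  have hspos : 0 < ‖s‖ := norm_pos_iff.mpr hs0
  have hne : 0 < ‖Φ s‖⁻¹ := by
    rw [hn1]
    have : 0 < ‖u s⁻¹‖ := hcpos.trans hb
    positivity
  have h8 : ‖Φ s‖ = ‖s‖ ^ n * ‖u s⁻¹‖⁻¹ := by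
    have := congrArg (fun x => x⁻¹) hn1
    simp only [inv_inv, mul_inv, inv_pow] at this
    exact this
  rw [h8, pow_succ]
  refine mul_le_mul_of_nonneg_left ?_ (by positivity)
  rw [norm_inv] at ha
  have h9 : ‖u s⁻¹‖⁻¹ ≤ c⁻¹ := by
    rw [inv_le_inv₀ (hcpos.trans hb) hcpos]
    exact hb.le
  refine h9.trans ?_
  rw [inv_le_comm₀ hcpos hspos]
  exact ha.le

/-- Entire functions have primitives. -/
theorem exists_primitive {E : Type*} [NormedAddCommGroup E] [NormedSpace ℂ E] [CompleteSpace E]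
    {f : ℂ → E} (hf : Differentiable ℂ f) :
    ∃ F : ℂ → E, F 0 = 0 ∧ ∀ z, HasDerivAt F (f z) z := by
  have hex : ∀ n : ℕ, ∃ F : ℂ → E, F 0 = 0 ∧ ∀ z ∈ ball (0 : ℂ) (n + 1), HasDerivAt F (f z) z := by
    intro n
    obtain ⟨F, hF0, hF⟩ := (hf.differentiableOn (s := ball (0 : ℂ) (n + 1))).isExactOn_ball.with_val_at
      0 (0 : E)
    exact ⟨F, hF0, hF⟩
  choose F hF0 hF using hex
  have hagree : ∀ n m : ℕ, n ≤ m → ∀ z ∈ ball (0 : ℂ) (n + 1), F n z = F m z := by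
    intro n m hnm z hz
    have hsub : ball (0 : ℂ) (n + 1) ⊆ ball (0 : ℂ) (m + 1) :=
      ball_subset_ball (by exact_mod_cast Nat.succ_le_succ hnm)
    have h3 : ∀ w ∈ ball (0 : ℂ) (n + 1), HasDerivAt (fun z => F n z - F m z) 0 w := by
      intro w hw
      have := (hF n w hw).sub (hF m w (hsub hw))
      rwa [sub_self] at this
    have h0 : (0 : ℂ) ∈ ball (0 : ℂ) (n + 1) := mem_ball_self (by positivity)
    have := (convex_ball (0 : ℂ) (n + 1 : ℝ)).is_const_of_fderivWithin_eq_zero (𝕜 := ℂ)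
      (f := fun z => F n z - F m z) (fun w hw => (h3 w hw).differentiableAt.differentiableWithinAt)
      (fun w hw => by
        rw [fderivWithin_of_isOpen isOpen_ball hw]
        have := (h3 w hw).hasFDerivAt.fderiv
        rw [this]
        simp) hz h0
    simp only [hF0, sub_self] at this
    exact sub_eq_zero.mp this
  refine ⟨fun z => F ⌈‖z‖⌉₊ z, by simp [hF0], ?_⟩
  intro z
  set N : ℕ := ⌈‖z‖⌉₊ + 1 with hN
  have hz : z ∈ ball (0 : ℂ) (N + 1) := by
    rw [mem_ball_zero_iff, hN]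
    push_cast
    linarith [Nat.le_ceil ‖z‖]
  refine (hF N z hz).congr_of_eventuallyEq ?_
  have hev : ∀ᶠ w in 𝓝 z, ‖w‖ < ‖z‖ + 1 :=
    (continuous_norm.continuousAt).eventually_lt_const (by linarith)
  filter_upwards [hev] with w hw
  apply hagree
  · rw [hN]
    refine Nat.ceil_le.mpr ?_
    push_cast
    linarith [Nat.le_ceil ‖z‖]
  · rw [mem_ball_zero_iff]
    linarith [Nat.le_ceil ‖w‖]

end Pool.Agent.Work.MP_970e75_an.Full
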