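import Mathlib
import Pool.Agent.Work.MP_970e75_an.Gen.Types

/-!
Interface of the project: discrete subgroups of Stein complex Lie groups of dimension at least two
are tame. See `BLUEPRINT.md` in this folder for the proofs. Every block proves one `Stmt_...`.
-/

set_option autoImplicit false

namespace Pool.Agent.Work.MP_970e75_an.Full

open Filter Topology Set
open scoped Manifold ContDiff Topology
open Pool.Agent.Work.MP_970e75_an.Gen

/-! ### Lie groups -/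

/-- The exponential map, a local logarithm, the adjoint representation and the bracket of the
complex Lie group `G` modelled on `E`; the space `E` plays the role of the Lie algebra. -/
structure LieTools (E : Type) [NormedAddCommGroup E] [NormedSpace ℂ E] (G : Type)
    [TopologicalSpace G] [ChartedSpace E G] [Group G] where
  exp : E → G
  log : G → E
  U : Set G
  Ad : G → E →L[ℂ] E
  br : E →L[ℂ] E →L[ℂ] E
  exp_hol : MDifferentiable 𝓘(ℂ, E) 𝓘(ℂ, E) exp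
  exp_add : ∀ (X : E) (s t : ℂ), exp ((s + t) • X) = exp (s • X) * exp (t • X)
  U_open : IsOpen U
  one_mem : (1 : G) ∈ U
  log_hol : MDifferentiableOn 𝓘(ℂ, E) 𝓘(ℂ, E) log U
  exp_log : ∀ g ∈ U, exp (log g) = g
  log_exp : ∀ᶠ X in 𝓝 (0 : E), log (exp X) = X
  Ad_hol : MDifferentiable 𝓘(ℂ, E) 𝓘(ℂ, E →L[ℂ] E) Ad
  Ad_one : Ad 1 = ContinuousLinearMap.id ℂ E
  Ad_mul : ∀ g h : G, Ad (g * h) = (Ad g).comp (Ad h)
  exp_Ad : ∀ (g : G) (X : E), exp (Ad g X) = g * exp X * g⁻¹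
  Ad_exp : ∀ X : E, Ad (exp X) = NormedSpace.exp (br X)
  br_self : ∀ X : E, br X X = 0
  jacobi : ∀ X Y Z : E, br X (br Y Z) = br (br X Y) Z + br Y (br X Z)
  exp_comm : ∀ X Y : E, br X Y = 0 → exp (X + Y) = exp X * exp Y

namespace LieTools

variable {E : Type} [NormedAddCommGroup E] [NormedSpace ℂ E] {G : Type}
    [TopologicalSpace G] [ChartedSpace E G] [Group G]

/-- The Lie algebra: a copy of `E`. -/
def LieAlg (_ : LieTools E G) : Type := E

instance (T : LieTools E G) : AddCommGroup T.LieAlg := inferInstanceAs (AddCommGroup E)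
instance (T : LieTools E G) : Module ℂ T.LieAlg := inferInstanceAs (Module ℂ E)
instance (T : LieTools E G) [FiniteDimensional ℂ E] : FiniteDimensional ℂ T.LieAlg :=
  inferInstanceAs (FiniteDimensional ℂ E)

/-- The identity map from `E` to the Lie algebra. -/
def toL (T : LieTools E G) : E ≃ₗ[ℂ] T.LieAlg := LinearEquiv.refl ℂ E

noncomputable instance (T : LieTools E G) : LieRing T.LieAlg where
  bracket X Y := T.toL (T.br (T.toL.symm X) (T.toL.symm Y))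
  add_lie X Y Z := by
    simp only [map_add, add_apply]
  lie_add X Y Z := by
    simp only [map_add]
  lie_self X := by
    simp only [T.br_self, map_zero]
  leibniz_lie X Y Z := by
    simp only [LinearEquiv.symm_apply_apply]
    rw [T.jacobi, map_add]

noncomputable instance (T : LieTools E G) : LieAlgebra ℂ T.LieAlg where
  lie_smul c X Y := by
    show T.toL (T.br (T.toL.symm X) (T.toL.symm (c • Y))) =
      c • T.toL (T.br (T.toL.symm X) (T.toL.symm Y))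
    simp only [map_smul]

theorem lie_toL (T : LieTools E G) (X Y : E) : ⁅T.toL X, T.toL Y⁆ = T.toL (T.br X Y) := by
  show T.toL (T.br (T.toL.symm (T.toL X)) (T.toL.symm (T.toL Y))) = _
  simp only [LinearEquiv.symm_apply_apply]

theorem toL_symm_lie (T : LieTools E G) (X Y : T.LieAlg) :
    T.toL.symm ⁅X, Y⁆ = T.br (T.toL.symm X) (T.toL.symm Y) := by
  show T.toL.symm (T.toL (T.br (T.toL.symm X) (T.toL.symm Y))) = _
  simp only [LinearEquiv.symm_apply_apply]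

end LieTools

/-- Block LX: every complex Lie group has an exponential map etc. -/
def Stmt_LX : Prop :=
  ∀ (E : Type) [NormedAddCommGroup E] [NormedSpace ℂ E] [FiniteDimensional ℂ E] (G : Type)
    [TopologicalSpace G] [ChartedSpace E G] [Group G] [LieGroup 𝓘(ℂ, E) ω G] [T2Space G],
    Nonempty (LieTools E G)

/-- Block LX1 (part of LX): local exponential map. `e` is holomorphic near `0`, a local
biholomorphism, and additive along lines. -/
def Stmt_LX1 : Prop :=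
  ∀ (E : Type) [NormedAddCommGroup E] [NormedSpace ℂ E] [FiniteDimensional ℂ E] (G : Type)
    [TopologicalSpace G] [ChartedSpace E G] [Group G] [LieGroup 𝓘(ℂ, E) ω G] [T2Space G],
    ∃ (r : ℝ) (e : E → G), 0 < r ∧ e 0 = 1 ∧
      MDifferentiableOn 𝓘(ℂ, E) 𝓘(ℂ, E) e (Metric.ball 0 r) ∧
      HasFDerivAt (fun X => extChartAt 𝓘(ℂ, E) (1 : G) (e X)) (ContinuousLinearMap.id ℂ E) 0 ∧
      ∀ (X : E) (s t : ℂ), ‖s • X‖ < r → ‖t • X‖ < r → ‖(s + t) • X‖ < r →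
        e ((s + t) • X) = e (s • X) * e (t • X)

/-- Block G0: the identity component is a connected complex Lie group. -/
def Stmt_G0 : Prop :=
  ∀ (E : Type) [NormedAddCommGroup E] [NormedSpace ℂ E] [FiniteDimensional ℂ E] (G : Type)
    [TopologicalSpace G] [ChartedSpace E G] [Group G] [LieGroup 𝓘(ℂ, E) ω G],
    ∃ (G₀ : Type) (_ : TopologicalSpace G₀) (_ : ChartedSpace E G₀) (_ : Group G₀)
      (_ : LieGroup 𝓘(ℂ, E) ω G₀) (j : G₀ →* G) (k : G → G₀),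
      ConnectedSpace G₀ ∧ Topology.IsOpenEmbedding j ∧
      MDifferentiable 𝓘(ℂ, E) 𝓘(ℂ, E) j ∧ (∀ g, k (j g) = g) ∧
      MDifferentiableOn 𝓘(ℂ, E) 𝓘(ℂ, E) k (Set.range j)

/-! ### Lie algebras -/

/-- Block AS: solvable Lie algebras. -/
def Stmt_AS : Prop :=
  ∀ (L : Type) [LieRing L] [LieAlgebra ℂ L] [FiniteDimensional ℂ L] [LieAlgebra.IsSolvable L],
    (∃ a b : L, ⁅a, b⁆ ≠ 0) →
    ∃ (X e : L) (U : LieIdeal ℂ L), (∀ u ∈ U, ⁅X, u⁆ = 0) ∧
      (∀ Y : L, ∃ c : ℂ, ⁅Y, e⁆ - c • e ∈ U) ∧ ⁅X, e⁆ ∈ U ∧ ⁅X, e⁆ ≠ 0 ∧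
      ((∃ A : L, ⁅A, X⁆ = X) ∨ ∀ Y Z : L, ⁅⁅Y, X⁆, Z⁆ = 0)

/-- Block A2: nonsolvable Lie algebras contain `sl₂`. -/
def Stmt_A2 : Prop :=
  ∀ (L : Type) [LieRing L] [LieAlgebra ℂ L] [FiniteDimensional ℂ L],
    ¬ LieAlgebra.IsSolvable L → ∃ h e f : L, IsSl2Triple h e f

/-- Block A2a (part of A2): lifting an `sl₂`-triple through a minimal abelian ideal. -/
def Stmt_A2a : Prop :=
  ∀ (L : Type) [LieRing L] [LieAlgebra ℂ L] [FiniteDimensional ℂ L] (V : LieIdeal ℂ L),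
    V ≠ ⊥ → (∀ a ∈ V, ∀ b ∈ V, ⁅a, b⁆ = 0) →
    (∀ I : LieIdeal ℂ L, I ≤ V → I = ⊥ ∨ I = V) →
    ∀ h e f : L ⧸ V, IsSl2Triple h e f →
    (∀ x : L ⧸ V, ∃ a b c : ℂ, x = a • h + b • e + c • f) →
    ∃ h' e' f' : L, IsSl2Triple h' e' f'

/-! ### Criteria for tameness -/

/-- Block CR: right flow. -/
def Stmt_CR : Prop :=
  ∀ (E : Type) [NormedAddCommGroup E] [NormedSpace ℂ E] [FiniteDimensional ℂ E] (G : Type)
    [TopologicalSpace G] [ChartedSpace E G] [Group G] [LieGroup 𝓘(ℂ, E) ω G], IsStein E G →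
    ∀ (x v z : ℂ → G) (t : G → ℂ), IsOneParam E x → IsOneParam E v → IsOneParam E z →
      MDifferentiable 𝓘(ℂ, E) 𝓘(ℂ, ℂ) t → (∀ s u, x s * v u = v u * x s) →
      (∀ g s, t (g * x s) = t g + s) → (∀ g s, t (g * v s) = t g) →
      (∀ s g, t (z s * g) = t g) → (∃ s, v s ≠ 1) → (∃ s, z s ≠ 1) →
      ∀ Γ : Subgroup G, DiscreteTopology Γ → IsTame E (Γ : Set G)

/-- Block CL: left twisted flow, additive. -/
def Stmt_CL : Prop :=
  ∀ (E : Type) [NormedAddCommGroup E] [NormedSpace ℂ E] [FiniteDimensional ℂ E] (G : Type)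
    [TopologicalSpace G] [ChartedSpace E G] [Group G] [LieGroup 𝓘(ℂ, E) ω G], IsStein E G →
    ∀ (x z : ℂ → G) (t : G → ℂ), IsOneParam E x → IsOneParam E z →
      MDifferentiable 𝓘(ℂ, E) 𝓘(ℂ, ℂ) t →
      (∀ s, x s ∈ commutator G ∨ x s ∈ Subgroup.center G) →
      (∀ s g, t (x s * g) = t g + s) → (∀ g s, t (g * z s) = t g) → (∃ s, z s ≠ 1) →
      ∀ Γ : Subgroup G, DiscreteTopology Γ → IsTame E (Γ : Set G)

/-- Block CM: left twisted flow, multiplicative. -/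
def Stmt_CM : Prop :=
  ∀ (E : Type) [NormedAddCommGroup E] [NormedSpace ℂ E] [FiniteDimensional ℂ E] (G : Type)
    [TopologicalSpace G] [ChartedSpace E G] [Group G] [LieGroup 𝓘(ℂ, E) ω G], IsStein E G →
    ∀ (x z : ℂ → G) (t : G → ℂ), IsOneParam E x → IsOneParam E z →
      MDifferentiable 𝓘(ℂ, E) 𝓘(ℂ, ℂ) t →
      (∀ s, x s ∈ commutator G ∨ x s ∈ Subgroup.center G) →
      x (2 * Real.pi * Complex.I) = 1 → (∀ g, t g ≠ 0) →
      (∀ s g, t (x s * g) = Complex.exp s * t g) → (∀ g s, t (g * z s) = t g) →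
      (∃ s, z s ≠ 1) →
      ∀ Γ : Subgroup G, DiscreteTopology Γ → IsTame E (Γ : Set G)

/-- Block SV: solvable nonabelian groups. -/
def Stmt_SV : Prop :=
  ∀ (E : Type) [NormedAddCommGroup E] [NormedSpace ℂ E] [FiniteDimensional ℂ E] (G : Type)
    [TopologicalSpace G] [ChartedSpace E G] [Group G] [LieGroup 𝓘(ℂ, E) ω G] [ConnectedSpace G]
    (T : LieTools E G) [LieAlgebra.IsSolvable T.LieAlg], IsStein E G →
    (∃ X Y : E, T.br X Y ≠ 0) →
    ∀ Γ : Subgroup G, DiscreteTopology Γ → IsTame E (Γ : Set G)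

/-- Block AB: abelian groups. -/
def Stmt_AB : Prop :=
  ∀ (E : Type) [NormedAddCommGroup E] [NormedSpace ℂ E] [FiniteDimensional ℂ E] (G : Type)
    [TopologicalSpace G] [ChartedSpace E G] [Group G] [LieGroup 𝓘(ℂ, E) ω G] [ConnectedSpace G]
    (T : LieTools E G), IsStein E G → 2 ≤ Module.finrank ℂ E → (∀ X Y : E, T.br X Y = 0) →
    ∀ Γ : Subgroup G, DiscreteTopology Γ → IsTame E (Γ : Set G)

/-- Block N1 (part of NS): the circle `z` of an `sl₂`-triple, the four matrix coefficients of the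
adjoint representation, and the facts on the centre. -/
def Stmt_N1 : Prop :=
  ∀ (E : Type) [NormedAddCommGroup E] [NormedSpace ℂ E] [FiniteDimensional ℂ E] (G : Type)
    [TopologicalSpace G] [ChartedSpace E G] [Group G] [LieGroup 𝓘(ℂ, E) ω G] [ConnectedSpace G]
    [T2Space G] (T : LieTools E G), (∃ h e f : T.LieAlg, IsSl2Triple h e f) →
    ∃ (z : ℂ → G) (F : Fin 4 → G → ℂ), IsOneParam E z ∧ z (2 * Real.pi * Complex.I) = 1 ∧
      (∀ i, MDifferentiable 𝓘(ℂ, E) 𝓘(ℂ, ℂ) (F i)) ∧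
      (∀ g s u, F 0 (z s * g * z u) = Complex.exp (4 * (s + u)) * F 0 g) ∧
      (∀ g s u, F 1 (z s * g * z u) = Complex.exp (-(4 * (s + u))) * F 1 g) ∧
      (∀ g s u, F 2 (z s * g * z u) = Complex.exp (4 * s) * F 2 g) ∧
      (∀ g s u, F 3 (z s * g * z u) = Complex.exp (-(4 * s)) * F 3 g) ∧
      F 0 1 ≠ 0 ∧ F 1 1 ≠ 0 ∧ (∀ i, ∃ a, F i a ≠ 0) ∧ (∀ i, ∃ a, F i (a * z 1 * a⁻¹) ≠ 0) ∧
      (∀ γ : G, (∀ a : G, ∃ s, a⁻¹ * γ * a = z s) → γ ∈ Subgroup.center G) ∧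
      {g : G | g ∈ Subgroup.center G ∧ ∃ s, g = z s}.Finite

/-- Block NS: groups with an `sl₂`-triple. -/
def Stmt_NS : Prop :=
  ∀ (E : Type) [NormedAddCommGroup E] [NormedSpace ℂ E] [FiniteDimensional ℂ E] (G : Type)
    [TopologicalSpace G] [ChartedSpace E G] [Group G] [LieGroup 𝓘(ℂ, E) ω G] [ConnectedSpace G]
    (T : LieTools E G), IsStein E G → (∃ h e f : T.LieAlg, IsSl2Triple h e f) →
    ∀ Γ : Subgroup G, DiscreteTopology Γ → IsTame E (Γ : Set G)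

/-! ### Function theory -/

/-- Block ID: identity theorem on connected complex manifolds. -/
def Stmt_ID : Prop :=
  ∀ (E : Type) [NormedAddCommGroup E] [NormedSpace ℂ E] (G : Type)
    [TopologicalSpace G] [ChartedSpace E G] [IsManifold 𝓘(ℂ, E) ω G] [ConnectedSpace G]
    (W : Type) [NormedAddCommGroup W] [NormedSpace ℂ W] [CompleteSpace W] (F : G → W),
    MDifferentiable 𝓘(ℂ, E) 𝓘(ℂ, W) F → (∃ g, F g ≠ 0) → Dense {g | F g ≠ 0}

/-- Block SU: sums of locally uniformly summable series of holomorphic functions. -/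
def Stmt_SU : Prop :=
  ∀ (E : Type) [NormedAddCommGroup E] [NormedSpace ℂ E] [FiniteDimensional ℂ E] (G : Type)
    [TopologicalSpace G] [ChartedSpace E G] [IsManifold 𝓘(ℂ, E) ω G]
    (W : Type) [NormedAddCommGroup W] [NormedSpace ℂ W] [CompleteSpace W] (I : Type)
    (u : I → G → W), (∀ i, MDifferentiable 𝓘(ℂ, E) 𝓘(ℂ, W) (u i)) →
    (∀ K : Set G, IsCompact K → ∃ b : I → ℝ, Summable b ∧ ∀ i, ∀ g ∈ K, ‖u i g‖ ≤ b i) →
    MDifferentiable 𝓘(ℂ, E) 𝓘(ℂ, W) (fun g => ∑' i, u i g)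

/-- Block IN: integrals of holomorphic functions depending on a parameter. -/
def Stmt_IN : Prop :=
  ∀ (E : Type) [NormedAddCommGroup E] [NormedSpace ℂ E] [FiniteDimensional ℂ E] (G : Type)
    [TopologicalSpace G] [ChartedSpace E G] [IsManifold 𝓘(ℂ, E) ω G]
    (F : ℝ → G → ℂ) (a b : ℝ), Continuous (fun p : ℝ × G => F p.1 p.2) →
    (∀ θ, MDifferentiable 𝓘(ℂ, E) 𝓘(ℂ, ℂ) (F θ)) →
    MDifferentiable 𝓘(ℂ, E) 𝓘(ℂ, ℂ) (fun g => ∫ θ in a..b, F θ g)

/-- Block LA: Laurent expansion along a circle subgroup. -/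
def Stmt_LA : Prop :=
  ∀ (E : Type) [NormedAddCommGroup E] [NormedSpace ℂ E] [FiniteDimensional ℂ E] (G : Type)
    [TopologicalSpace G] [ChartedSpace E G] [Group G] [LieGroup 𝓘(ℂ, E) ω G]
    (z : ℂ → G), IsOneParam E z → z (2 * Real.pi * Complex.I) = 1 →
    ∀ f : G → ℂ, MDifferentiable 𝓘(ℂ, E) 𝓘(ℂ, ℂ) f →
    ∃ c : ℤ → G → ℂ, (∀ n, MDifferentiable 𝓘(ℂ, E) 𝓘(ℂ, ℂ) (c n)) ∧
      (∀ n g s, c n (g * z s) = Complex.exp (n * s) * c n g) ∧
      (∀ g, HasSum (fun n => c n g) (f g)) ∧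
      (∀ (g : G) (r M : ℝ), 0 ≤ r → (∀ s : ℂ, |s.re| ≤ r → ‖f (g * z s)‖ ≤ M) →
        ∀ n : ℤ, ‖c n g‖ ≤ M * Real.exp (-(|n| : ℤ) * r))

/-- Block HU: the numerical lemma behind the Kempf-Ness argument. -/
def Stmt_HU : Prop :=
  ∀ (a : ℤ → ℝ) (R : ℝ), 1 ≤ R → (∀ n, 0 ≤ a n) → a 0 ≤ R →
    (∀ n m : ℕ, 1 ≤ n → 1 ≤ m →
      a n ^ m * a (-(m : ℤ)) ^ n ≤ R * Real.exp (-(2 * n * m))) →
    (∃ n : ℤ, 0 < n ∧ a n ≠ 0) → (∃ n : ℤ, n < 0 ∧ a n ≠ 0) →
    ∃ σ : ℝ, ∀ n : ℤ, Real.exp (n * σ) * a n ≤ R * Real.exp (-(|n| : ℤ))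

/-- Block SE: torus orbits are separated by invariant monomials. -/
def Stmt_SE : Prop :=
  ∀ (J : Type) (w : J → ℤ) (a b : J → ℂ),
    (∀ k : J →₀ ℕ, (k.sum fun j m => (m : ℤ) * w j) = 0 →
      (k.prod fun j m => a j ^ m) = k.prod fun j m => b j ^ m) →
    (∃ j, 0 < w j ∧ a j ≠ 0) → (∃ j, w j < 0 ∧ a j ≠ 0) →
    ∃ s : ℂ, ∀ j, b j = Complex.exp (w j * s) * a j

/-- Block Q: a holomorphic quotient map for a closed circle subgroup. -/
def Stmt_Q : Prop :=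
  ∀ (E : Type) [NormedAddCommGroup E] [NormedSpace ℂ E] [FiniteDimensional ℂ E] (G : Type)
    [TopologicalSpace G] [ChartedSpace E G] [Group G] [LieGroup 𝓘(ℂ, E) ω G], IsStein E G →
    ∀ z : ℂ → G, IsOneParam E z → z (2 * Real.pi * Complex.I) = 1 →
    (∀ K : Set G, IsCompact K → ∃ C : ℝ, ∀ s, z s ∈ K → |s.re| ≤ C) →
    ∃ (W : Type) (_ : NormedAddCommGroup W) (_ : NormedSpace ℂ W) (_ : CompleteSpace W)
      (Q : G → W), MDifferentiable 𝓘(ℂ, E) 𝓘(ℂ, W) Q ∧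
      (∀ g s, Q (g * z s) = Q g) ∧ (∀ g g', Q g = Q g' → ∃ s, g' = g * z s) ∧
      ∀ R : ℝ, ∃ K : Set G, IsCompact K ∧ ∀ g, ‖Q g‖ ≤ R → ∃ s, g * z s ∈ K

/-- Block IP: interpolation in arbitrary normed spaces. -/
def Stmt_IP : Prop :=
  ∀ (W : Type) [NormedAddCommGroup W] [NormedSpace ℂ W] (P : Set W),
    (∀ R : ℝ, {p ∈ P | ‖p‖ ≤ R}.Finite) → ∀ v : W → ℂ,
    ∃ f : W → ℂ, Differentiable ℂ f ∧ ∀ p ∈ P, f p = v p

/-- The final statement. -/
def Stmt_Main : Prop :=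
  ∀ (E : Type) [NormedAddCommGroup E] [NormedSpace ℂ E] [FiniteDimensional ℂ E] (G : Type)
    [TopologicalSpace G] [ChartedSpace E G] [Group G] [LieGroup 𝓘(ℂ, E) ω G],
    2 ≤ Module.finrank ℂ E → IsStein E G →
    ∀ Γ : Subgroup G, DiscreteTopology Γ → IsTame E (Γ : Set G)

end Pool.Agent.Work.MP_970e75_an.Full
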