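import Pool.Agent.Work.MP_970e75_an.Full.Tools
import Pool.Agent.Work.MP_970e75_an.Full.Growth
import Pool.Agent.Work.MP_970e75_an.Gen.TwoFlows

/-!
Holomorphic maps from `ℂ` to an abelian complex Lie group lift to the Lie algebra.
-/

set_option autoImplicit false

namespace Pool.Agent.Work.MP_970e75_an.Full

open Filter Topology Set
open scoped Manifold ContDiff Topology
open Pool.Agent.Work.MP_970e75_an.Gen

namespace LieTools

variable {E : Type} [NormedAddCommGroup E] [NormedSpace ℂ E] {G : Type}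
    [TopologicalSpace G] [ChartedSpace E G] [Group G] (T : LieTools E G)

/-- Uniqueness of lifts. -/
theorem lift_unique (hab : ∀ X Y : E, T.br X Y = 0) {Φ₁ Φ₂ : ℂ → E} (h1 : Continuous Φ₁)
    (h2 : Continuous Φ₂) (h0 : Φ₁ 0 = Φ₂ 0) (h : ∀ s, T.exp (Φ₁ s) = T.exp (Φ₂ s)) (s : ℂ) :
    Φ₁ s = Φ₂ s := by
  have hD : Continuous fun s => Φ₁ s - Φ₂ s := h1.sub h2
  have hD1 : ∀ s, T.exp (Φ₁ s - Φ₂ s) = 1 := by
    intro s
    rw [sub_eq_add_neg, T.exp_comm _ _ (hab _ _), T.exp_neg, h s, mul_inv_cancel]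
  have hlog0 : T.log 1 = 0 := by
    have := T.log_exp.self_of_nhds
    rwa [T.exp_zero] at this
  have hcl : IsClosed {s | Φ₁ s - Φ₂ s = 0} := isClosed_eq hD continuous_const
  have hop : IsOpen {s | Φ₁ s - Φ₂ s = 0} := by
    rw [isOpen_iff_mem_nhds]
    intro s hs
    have h3 : Tendsto (fun s => Φ₁ s - Φ₂ s) (𝓝 s) (𝓝 0) := by
      have := hD.tendsto s
      rwa [show Φ₁ s - Φ₂ s = 0 from hs] at this
    filter_upwards [h3.eventually T.log_exp] with u hu
    rw [hD1, hlog0] at hu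
    exact hu.symm
  have huniv := IsClopen.eq_univ ⟨hcl, hop⟩ ⟨0, by simp [h0]⟩
  have : s ∈ {s | Φ₁ s - Φ₂ s = 0} := by rw [huniv]; trivial
  exact sub_eq_zero.mp this

/-- Existence of lifts. -/
theorem exists_lift [LieGroup 𝓘(ℂ, E) ω G] [FiniteDimensional ℂ E]
    (hab : ∀ X Y : E, T.br X Y = 0) {F : ℂ → G}
    (hF : MDifferentiable 𝓘(ℂ, ℂ) 𝓘(ℂ, E) F) (hF0 : F 0 = 1) :
    ∃ Φ : ℂ → E, Differentiable ℂ Φ ∧ Φ 0 = 0 ∧ ∀ s, T.exp (Φ s) = F s := by
  have hTG : IsTopologicalGroup G := topologicalGroup_of_lieGroup 𝓘(ℂ, E) ω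
  have hcE : CompleteSpace E := FiniteDimensional.complete ℂ E
  have hlog0 : T.log 1 = 0 := by
    have := T.log_exp.self_of_nhds
    rwa [T.exp_zero] at this
  set L : ℂ → ℂ → E := fun s u => T.log ((F s)⁻¹ * F u) with hL
  set W : ℂ → Set ℂ := fun s => {u | (F s)⁻¹ * F u ∈ T.U} with hW
  have hWo : ∀ s, IsOpen (W s) := fun s =>
    T.U_open.preimage (continuous_const.mul hF.continuous)
  have hWs : ∀ s, s ∈ W s := fun s => by
    simp only [hW, mem_ofPred_eq, inv_mul_cancel]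
    exact T.one_mem
  have hLd : ∀ s, DifferentiableOn ℂ (L s) (W s) := by
    intro s
    rw [← mdifferentiableOn_iff_differentiableOn]
    have h1 : MDifferentiable 𝓘(ℂ, ℂ) 𝓘(ℂ, E) fun u => (F s)⁻¹ * F u :=
      mdiff_mul mdifferentiable_const hF
    exact T.log_hol.comp h1.mdifferentiableOn (fun u hu => hu)
  have hLF : ∀ s, ∀ u ∈ W s, F u = F s * T.exp (L s u) := by
    intro s u hu
    simp only [hL]
    rw [T.exp_log _ hu, mul_inv_cancel_left]
  have hLss : ∀ s, L s s = 0 := by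
    intro s
    simp only [hL, inv_mul_cancel, hlog0]
  set f : ℂ → E := fun s => deriv (L s) s with hf
  have hfL : ∀ s₀, ∀ s ∈ W s₀, f s = deriv (L s₀) s := by
    intro s₀ s hs
    have hev : L s =ᶠ[𝓝 s] fun u => L s₀ u - L s₀ s := by
      have hc : ContinuousAt (fun u => L s₀ u - L s₀ s) s :=
        (((hLd s₀).differentiableAt ((hWo s₀).mem_nhds hs)).continuousAt).sub continuousAt_const
      have ht : Tendsto (fun u => L s₀ u - L s₀ s) (𝓝 s) (𝓝 0) := by
        have := hc.tendsto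
        rwa [sub_self] at this
      filter_upwards [ht.eventually T.log_exp, (hWo s₀).mem_nhds hs] with u hu1 hu2
      have h1 : (F s)⁻¹ * F u = T.exp (L s₀ u - L s₀ s) := by
        rw [hLF s₀ s hs, hLF s₀ u hu2, mul_inv_rev, mul_assoc, inv_mul_cancel_left, ← T.exp_neg,
          ← T.exp_comm _ _ (hab _ _), neg_add_eq_sub]
      simp only [hL] at h1 hu1 ⊢
      rw [h1, hu1]
    simp only [hf]
    rw [hev.deriv_eq, deriv_sub_const]
  have hfd : Differentiable ℂ f := by
    intro s₀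
    have h1 : DifferentiableOn ℂ (deriv (L s₀)) (W s₀) := (hLd s₀).deriv (hWo s₀)
    have h2 : DifferentiableAt ℂ (deriv (L s₀)) s₀ := h1.differentiableAt ((hWo s₀).mem_nhds (hWs s₀))
    refine h2.congr_of_eventuallyEq ?_
    filter_upwards [(hWo s₀).mem_nhds (hWs s₀)] with s hs
    exact hfL s₀ s hs
  obtain ⟨Φ, hΦ0, hΦ⟩ := exists_primitive hfd
  refine ⟨Φ, fun s => (hΦ s).differentiableAt, hΦ0, ?_⟩
  have hlc : IsLocallyConstant fun s => F s * T.exp (-Φ s) := by
    rw [IsLocallyConstant.iff_eventually_eq]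
    intro s₀
    obtain ⟨ε, hε, hball⟩ := Metric.isOpen_iff.mp (hWo s₀) s₀ (hWs s₀)
    filter_upwards [Metric.ball_mem_nhds s₀ hε] with u hu
    have hder : ∀ w ∈ Metric.ball s₀ ε, HasDerivAt (fun u => L s₀ u - Φ u) 0 w := by
      intro w hw
      have h1 : HasDerivAt (L s₀) (f w) w := by
        rw [hfL s₀ w (hball hw)]
        exact ((hLd s₀).differentiableAt ((hWo s₀).mem_nhds (hball hw))).hasDerivAt
      have := h1.sub (hΦ w)
      rwa [sub_self] at this
    have hconst := (convex_ball s₀ ε).is_const_of_fderivWithin_eq_zero (𝕜 := ℂ)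
      (f := fun u => L s₀ u - Φ u)
      (fun w hw => (hder w hw).differentiableAt.differentiableWithinAt)
      (fun w hw => by
        rw [fderivWithin_of_isOpen Metric.isOpen_ball hw]
        have := (hder w hw).hasFDerivAt.fderiv
        rw [this]
        simp) hu (Metric.mem_ball_self hε)
    rw [hLF s₀ u (hball hu), mul_assoc, ← T.exp_comm _ _ (hab _ _), ← sub_eq_add_neg, hconst,
      hLss, zero_sub]
  intro s
  have h1 := hlc.apply_eq_of_isPreconnected (s := univ) isPreconnected_univ (mem_univ s)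
    (mem_univ 0)
  simp only [hF0, hΦ0, neg_zero, T.exp_zero, mul_one] at h1
  rw [T.exp_neg, mul_inv_eq_one] at h1
  exact h1.symm

end LieTools

end Pool.Agent.Work.MP_970e75_an.Full
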