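import Pool.Agent.Work.MP_970e75_an.Full.Tools
import Pool.Agent.Work.MP_970e75_an.Full.CR
import Pool.Agent.Work.MP_970e75_an.Gen.TwoFlows

/-!
The circle of an `sl₂`-triple and the matrix coefficients of the adjoint representation.
-/

set_option autoImplicit false

namespace Pool.Agent.Work.MP_970e75_an.Full

open Filter Topology Set
open scoped Manifold ContDiff Topology
open Pool.Agent.Work.MP_970e75_an Pool.Agent.Work.MP_970e75_an.Gen

section Operator

variable {E : Type} [NormedAddCommGroup E] [NormedSpace ℂ E] [FiniteDimensional ℂ E]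

/-- Exponential of a Jordan block of size two. -/
theorem exp_apply_jordan (A : E →L[ℂ] E) (u v : E) (c : ℂ) (h1 : A u = c • u + v)
    (h2 : A v = c • v) : NormedSpace.exp A u = Complex.exp c • (u + v) := by
  have hpv : ∀ n : ℕ, (A ^ n) v = c ^ n • v := by
    intro n
    induction n with
    | zero => simp
    | succ n ih =>
      rw [pow_succ']
      show A ((A ^ n) v) = _
      rw [ih, map_smul, h2, smul_smul, pow_succ]
  have hpu : ∀ n : ℕ, (A ^ (n + 1)) u = c ^ (n + 1) • u + ((n + 1 : ℕ) * c ^ n : ℂ) • v := by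
    intro n
    induction n with
    | zero => simp [h1]
    | succ n ih =>
      rw [pow_succ']
      show A ((A ^ (n + 1)) u) = _
      rw [ih, map_add, map_smul, map_smul, h1, h2, smul_add, smul_smul, smul_smul, add_assoc,
        ← add_smul]
      congr 2
      push_cast
      ring
  have hc := NormedSpace.exp_series_hasSum_exp' (𝕂 := ℂ) c
  rw [← Complex.exp_eq_exp_ℂ] at hc
  have e1 : HasSum (fun n : ℕ => ((n.factorial : ℂ)⁻¹ • c ^ n) • u) (Complex.exp c • u) :=
    hc.smul_const u
  have e2 : HasSum (fun n : ℕ => ((n.factorial : ℂ)⁻¹ • c ^ n) • v) (Complex.exp c • v) :=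
    hc.smul_const v
  have e3 : HasSum (fun n : ℕ => (((n + 1).factorial : ℂ)⁻¹ • ((n + 1 : ℕ) * c ^ n : ℂ)) • v)
      (Complex.exp c • v) := by
    convert e2 using 3 with n
    have h3 : (((n + 1).factorial : ℕ) : ℂ) = (n + 1 : ℕ) * (n.factorial : ℂ) := by
      rw [Nat.factorial_succ]; push_cast; ring
    have h4 : ((n + 1 : ℕ) : ℂ) ≠ 0 := Nat.cast_ne_zero.mpr (Nat.succ_ne_zero n)
    have h5 : (n.factorial : ℂ) ≠ 0 := Nat.cast_ne_zero.mpr (Nat.factorial_ne_zero n)
    rw [h3, smul_eq_mul, smul_eq_mul]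
    field_simp
  have e4 : HasSum (fun n : ℕ => ((n.factorial : ℂ)⁻¹) • (A ^ n) u)
      (Complex.exp c • u + Complex.exp c • v) := by
    rw [← hasSum_nat_add_iff' 1] at e1 ⊢
    simp only [Finset.range_one, Finset.sum_singleton, Nat.factorial_zero, Nat.cast_one, inv_one,
      pow_zero, one_smul] at e1 ⊢
    have e5 := e1.add e3
    convert e5 using 1
    · funext n
      rw [hpu, smul_add, smul_smul, smul_smul, smul_eq_mul, smul_eq_mul]
    · show Complex.exp c • u + Complex.exp c • v - (1 : E →L[ℂ] E) u = _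
      rw [one_apply_eq_self]
      abel
  rw [(hasSum_exp_apply A u).unique e4, smul_add]

theorem functional_exp (A : E →L[ℂ] E) (ξ : E →L[ℂ] ℂ) (c : ℂ) (h : ∀ v, ξ (A v) = c * ξ v)
    (v : E) : ξ (NormedSpace.exp A v) = Complex.exp c * ξ v := by
  have hp : ∀ n : ℕ, ξ ((A ^ n) v) = c ^ n * ξ v := by
    intro n
    induction n with
    | zero => simp
    | succ n ih =>
      rw [pow_succ']
      show ξ (A ((A ^ n) v)) = _
      rw [h, ih, pow_succ]
      ring
  have h1 := (hasSum_exp_apply A v).mapL ξ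
  have h2 := (NormedSpace.exp_series_hasSum_exp' (𝕂 := ℂ) c).mul_right (ξ v)
  rw [← Complex.exp_eq_exp_ℂ] at h2
  have h3 : (fun b : ℕ => ξ ((b.factorial : ℂ)⁻¹ • (A ^ b) v)) =
      fun i : ℕ => ((i.factorial : ℂ)⁻¹ • c ^ i) * ξ v := by
    funext n
    rw [map_smul, hp, smul_eq_mul, smul_eq_mul, mul_assoc]
  rw [h3] at h1
  exact h1.unique h2

/-- A covector of weight `c` detecting an eigenvector `e` of weight `c`, when the exponential of
`τ A` is trivial. -/
theorem exists_covector (A : E →L[ℂ] E) (e : E) (c τ : ℂ) (hτ : τ ≠ 0) (he : A e = c • e)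
    (he0 : e ≠ 0) (hper : ∀ u, NormedSpace.exp (τ • A) u = u) (hc : Complex.exp (τ * c) = 1) :
    ∃ ξ : E →L[ℂ] ℂ, ξ e = 1 ∧ ∀ v, ξ (A v) = c * ξ v := by
  have hnot : e ∉ LinearMap.range ((A : E →ₗ[ℂ] E) - c • LinearMap.id) := by
    rintro ⟨u, hu⟩
    have hu' : A u = c • u + e := by
      have : A u - c • u = e := hu
      rw [← this]; abel
    have h1 : NormedSpace.exp (τ • A) u = Complex.exp (τ * c) • (u + τ • e) := by
      apply exp_apply_jordan
      · show τ • A u = _
        rw [hu', smul_add, smul_smul]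
      · show τ • A (τ • e) = _
        rw [map_smul, he, smul_smul, smul_smul, smul_smul]
        congr 1
        ring
    rw [hper, hc, one_smul] at h1
    have h2 : τ • e = 0 := by
      have h3 : u + 0 = u + τ • e := by rw [add_zero]; exact h1
      exact (add_left_cancel h3).symm
    rcases smul_eq_zero.mp h2 with h | h
    · exact hτ h
    · exact he0 h
  obtain ⟨f, hf1, hf2⟩ := Submodule.exists_le_ker_of_notMem hnot
  refine ⟨LinearMap.toContinuousLinearMap ((f e)⁻¹ • f), ?_, ?_⟩
  · show (f e)⁻¹ * f e = 1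
    exact inv_mul_cancel₀ hf1
  · intro v
    show (f e)⁻¹ * f (A v) = c * ((f e)⁻¹ * f v)
    have h1 : f (A v - c • v) = 0 := hf2 ⟨v, rfl⟩
    rw [map_sub, map_smul, sub_eq_zero, smul_eq_mul] at h1
    rw [h1]
    ring

end Operator

namespace LieTools

variable {E : Type} [NormedAddCommGroup E] [NormedSpace ℂ E] {G : Type}
    [TopologicalSpace G] [ChartedSpace E G] [Group G] (T : LieTools E G)

theorem eq_of_exp_line (X Y : E) (h : ∀ s : ℂ, T.exp (s • X) = T.exp (s • Y)) : X = Y := by
  have ht : ∀ Z : E, Tendsto (fun s : ℂ => s • Z) (𝓝 0) (𝓝 0) := by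
    intro Z
    have : Continuous fun s : ℂ => s • Z := continuous_id.smul continuous_const
    simpa using this.tendsto 0
  have h2 := ((ht X).eventually T.log_exp).and ((ht Y).eventually T.log_exp)
  obtain ⟨ε, hε, hball⟩ := Metric.eventually_nhds_iff.mp h2
  obtain ⟨h3, h4⟩ := hball (y := ((ε / 2 : ℝ) : ℂ)) (by
    rw [dist_zero_right, Complex.norm_real, Real.norm_eq_abs, abs_of_pos (by positivity)]
    linarith)
  rw [h, h4] at h3
  have h5 : ((ε / 2 : ℝ) : ℂ) ≠ 0 := by
    exact_mod_cast (by positivity : (0 : ℝ) < ε / 2).ne'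
  exact (smul_right_injective E h5 h3).symm

theorem Ad_eq_of_center (g : G) (hg : g ∈ Subgroup.center G) (X : E) : T.Ad g X = X := by
  apply T.eq_of_exp_line
  intro s
  rw [← map_smul, T.exp_Ad, ← Subgroup.mem_center_iff.mp hg, mul_inv_cancel_right]

end LieTools

/-- The values of a circle at the multiples of `π i / 2`. -/
theorem finite_quarter {G : Type} [TopologicalSpace G] [Group G] {z : ℂ → G} (hadd : ∀ s t, z (s + t) = z s * z t)
    (hper : z (2 * Real.pi * Complex.I) = 1) (s₀ : ℂ) :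
    {g : G | ∃ k : ℤ, g = z (s₀ + k * (Real.pi * Complex.I / 2))}.Finite := by
  have hz0 := oneParam_zero hadd
  have hn : ∀ n : ℕ, z (n * (2 * Real.pi * Complex.I)) = 1 := by
    intro n
    induction n with
    | zero => simp [hz0]
    | succ n ih =>
      have : ((n + 1 : ℕ) : ℂ) * (2 * Real.pi * Complex.I) =
          n * (2 * Real.pi * Complex.I) + 2 * Real.pi * Complex.I := by push_cast; ring
      rw [this, hadd, ih, hper, mul_one]
  have hi : ∀ n : ℤ, z (n * (2 * Real.pi * Complex.I)) = 1 := by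
    intro n
    obtain ⟨m, rfl | rfl⟩ := n.eq_nat_or_neg
    · exact_mod_cast hn m
    · have : ((-(m : ℤ) : ℤ) : ℂ) * (2 * Real.pi * Complex.I) =
        -(m * (2 * Real.pi * Complex.I)) := by push_cast; ring
      rw [this, oneParam_neg hadd, hn, inv_one]
  refine ((Set.finite_Ico (0 : ℤ) 4).image
    (fun k : ℤ => z (s₀ + k * (Real.pi * Complex.I / 2)))).subset ?_
  rintro g ⟨k, rfl⟩
  refine ⟨k % 4, ⟨Int.emod_nonneg k (by norm_num), Int.emod_lt_of_pos k (by norm_num)⟩, ?_⟩
  have h1 : (k : ℂ) = ((k % 4 : ℤ) : ℂ) + 4 * ((k / 4 : ℤ) : ℂ) := by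
    have := Int.emod_add_mul_ediv k 4
    exact_mod_cast this.symm
  have h2 : s₀ + (k : ℂ) * (Real.pi * Complex.I / 2) =
      (s₀ + ((k % 4 : ℤ) : ℂ) * (Real.pi * Complex.I / 2)) +
        ((k / 4 : ℤ) : ℂ) * (2 * Real.pi * Complex.I) := by
    rw [h1]; ring
  show z (s₀ + ((k % 4 : ℤ) : ℂ) * (Real.pi * Complex.I / 2)) = _
  rw [h2, hadd _ (((k / 4 : ℤ) : ℂ) * (2 * Real.pi * Complex.I)), hi, mul_one]

theorem quarter_of_exp_eq {s s₀ : ℂ} (h : Complex.exp (4 * s) = Complex.exp (4 * s₀)) :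
    ∃ k : ℤ, s = s₀ + k * (Real.pi * Complex.I / 2) := by
  obtain ⟨n, hn⟩ := Complex.exp_eq_exp_iff_exists_int.mp h
  refine ⟨n, ?_⟩
  linear_combination hn / 4

/-- Block N1. -/
theorem stmt_N1 : Stmt_N1 := by
  classical
  rintro E _ _ _ G _ _ _ _ _ _ T ⟨h', e', f', htr⟩
  have hTG : IsTopologicalGroup G := topologicalGroup_of_lieGroup 𝓘(ℂ, E) ω
  obtain ⟨h, rfl⟩ := T.toL.surjective h'
  obtain ⟨e, rfl⟩ := T.toL.surjective e'
  obtain ⟨f, rfl⟩ := T.toL.surjective f'
  have hef : T.br e f = h := by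
    have := htr.lie_e_f
    rw [T.lie_toL] at this
    exact T.toL.injective this
  have hhe : T.br h e = (2 : ℂ) • e := by
    have := htr.lie_h_e_smul (R := ℂ)
    rw [T.lie_toL, ← map_smul] at this
    exact T.toL.injective this
  have hhf : T.br h f = -((2 : ℂ) • f) := by
    have := htr.lie_lie_smul_f (R := ℂ)
    rw [T.lie_toL, ← map_smul, ← map_neg] at this
    exact T.toL.injective this
  have hfe : T.br f e = -h := by rw [T.br_skew, hef]
  have heh : T.br e h = -((2 : ℂ) • e) := by rw [T.br_skew, hhe]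
  have hfh : T.br f h = (2 : ℂ) • f := by rw [T.br_skew, hhf, neg_neg]
  have he0 : e ≠ 0 := by
    intro h0
    exact htr.e_ne_zero (by rw [h0, map_zero])
  have hf0 : f ≠ 0 := by
    intro h0
    exact htr.f_ne_zero (by rw [h0, map_zero])
  -- adjoint actions of the unipotents
  have hnf : T.br (-f) = - T.br f := map_neg _ _
  have hne : T.br (-e) = - T.br e := map_neg _ _
  have a1 : T.Ad (T.exp e) h = h - (2 : ℂ) • e := by
    rw [T.Ad_exp, exp_apply_of_apply_apply_eq_zero _ _ _ heh (by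
      rw [map_neg, map_smul, T.br_self, smul_zero, neg_zero])]
    abel
  have a2 : T.Ad (T.exp e) e = e := by
    rw [T.Ad_exp, exp_apply_of_apply_eq_zero _ _ (T.br_self e)]
  have a3 : T.Ad (T.exp (-f)) h = h - (2 : ℂ) • f := by
    rw [T.Ad_exp, exp_apply_of_apply_apply_eq_zero _ _ (-((2 : ℂ) • f)) (by
      rw [hnf, neg_apply, hfh]) (by
      rw [hnf, neg_apply, map_neg, map_smul, T.br_self, smul_zero, neg_zero, neg_zero])]
    abel
  have a4 : T.Ad (T.exp (-f)) e = e + h - f := by
    rw [T.Ad_exp, exp_apply_of_sq _ _ h (-((2 : ℂ) • f)) (by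
      rw [hnf, neg_apply, hfe, neg_neg]) (by
      rw [hnf, neg_apply, hfh]) (by
      rw [hnf, neg_apply, map_neg, map_smul, T.br_self, smul_zero, neg_zero, neg_zero])]
    rw [smul_neg, smul_smul]
    norm_num
    abel
  have a5 : T.Ad (T.exp f) h = h + (2 : ℂ) • f := by
    rw [T.Ad_exp, exp_apply_of_apply_apply_eq_zero _ _ _ hfh (by
      rw [map_smul, T.br_self, smul_zero])]
  have a6 : T.Ad (T.exp f) f = f := by
    rw [T.Ad_exp, exp_apply_of_apply_eq_zero _ _ (T.br_self f)]
  have a7 : T.Ad (T.exp (-e)) h = h + (2 : ℂ) • e := by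
    rw [T.Ad_exp, exp_apply_of_apply_apply_eq_zero _ _ ((2 : ℂ) • e) (by
      rw [hne, neg_apply, heh, neg_neg]) (by
      rw [hne, neg_apply, map_smul, T.br_self, smul_zero, neg_zero])]
  -- the circle
  set H2 : E := (2 : ℂ) • h with hH2
  have hH2e : T.br H2 e = (4 : ℂ) • e := by
    rw [hH2, map_smul, smul_apply, hhe, smul_smul]; norm_num
  have hH2f : T.br H2 f = (-4 : ℂ) • f := by
    rw [hH2, map_smul, smul_apply, hhf, smul_neg, smul_smul, ← neg_smul]; norm_num
  have hH2h : T.br H2 h = 0 := by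
    rw [hH2, map_smul, smul_apply, T.br_self, smul_zero]
  set z : ℂ → G := fun s => T.exp (s • H2) with hz
  have hz1 : IsOneParam E z := T.isOneParam H2
  have hz0 : z 0 = 1 := oneParam_zero hz1.2
  have hze : ∀ s, T.Ad (z s) e = Complex.exp (s * 4) • e := fun s => T.Ad_exp_smul H2 e 4 s hH2e
  have hzf : ∀ s, T.Ad (z s) f = Complex.exp (s * (-4)) • f := fun s =>
    T.Ad_exp_smul H2 f (-4) s hH2f
  have hzh : ∀ s, T.Ad (z s) h = h := by
    intro s
    have := T.Ad_exp_smul H2 h 0 s (by rw [hH2h, zero_smul])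
    rw [mul_zero, Complex.exp_zero, one_smul] at this
    exact this
  have hper : z (2 * Real.pi * Complex.I) = 1 := by
    set c : G := T.exp ((2 * Real.pi * Complex.I) • h) with hc
    have hce : T.Ad c e = e := by
      rw [hc, T.Ad_exp_smul h e 2 _ hhe]
      have : (2 * (Real.pi : ℂ) * Complex.I) * 2 = ((2 : ℤ) : ℂ) * (2 * Real.pi * Complex.I) := by
        push_cast; ring
      rw [this, Complex.exp_int_mul_two_pi_mul_I, one_smul]
    have hcf : T.Ad c (-f) = -f := by
      rw [map_neg, hc, T.Ad_exp_smul h f (-2) _ (by rw [hhf, neg_smul])]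
      have : (2 * (Real.pi : ℂ) * Complex.I) * (-2) =
          ((-2 : ℤ) : ℂ) * (2 * Real.pi * Complex.I) := by
        push_cast; ring
      rw [this, Complex.exp_int_mul_two_pi_mul_I, one_smul]
    have hcomm : ∀ X : E, T.Ad c X = X → c * T.exp X = T.exp X * c := by
      intro X hX
      have h1 := T.exp_Ad c X
      rw [hX, eq_mul_inv_iff_mul_eq] at h1
      exact h1.symm
    set n : G := T.exp e * T.exp (-f) * T.exp e with hn
    have hcn : c * n = n * c := by
      have c1 := hcomm e hce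
      have c2 := hcomm (-f) hcf
      calc c * n = c * T.exp e * T.exp (-f) * T.exp e := by rw [hn]; simp only [mul_assoc]
        _ = T.exp e * (c * T.exp (-f)) * T.exp e := by rw [c1]; simp only [mul_assoc]
        _ = T.exp e * T.exp (-f) * (c * T.exp e) := by rw [c2]; simp only [mul_assoc]
        _ = n * c := by rw [c1, hn]; simp only [mul_assoc]
    have hAdn : T.Ad n h = -h := by
      rw [hn, T.Ad_mul_apply, T.Ad_mul_apply, a1, map_sub, map_smul, a3, a4, map_sub, map_sub,
        map_smul, map_smul, map_sub, map_add, a1, a2]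
      module
    have h1 := T.exp_Ad n ((2 * Real.pi * Complex.I) • h)
    rw [map_smul, hAdn, smul_neg, T.exp_neg, ← hc, ← hcn, mul_inv_cancel_right] at h1
    have h2 : z (2 * Real.pi * Complex.I) = c * c := by
      rw [hc, ← T.exp_add, hz, hH2]
      show T.exp _ = T.exp _
      rw [smul_smul]
      congr 2
      ring
    rw [h2]
    nth_rw 1 [← h1]
    rw [inv_mul_cancel]
  -- covectors
  have hperop : ∀ u, NormedSpace.exp ((2 * Real.pi * Complex.I) • T.br H2) u = u := by
    intro u
    have h1 := T.Ad_exp ((2 * Real.pi * Complex.I) • H2)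
    have h2 : T.exp ((2 * Real.pi * Complex.I) • H2) = 1 := hper
    rw [h2, T.Ad_one, map_smul] at h1
    rw [← h1]
    rfl
  have h2pi : (2 * (Real.pi : ℂ) * Complex.I) ≠ 0 := Complex.two_pi_I_ne_zero
  obtain ⟨ξp, hξp, hξp'⟩ := exists_covector (T.br H2) e 4 _ h2pi hH2e he0 hperop (by
    have : (2 * (Real.pi : ℂ) * Complex.I) * 4 = ((4 : ℤ) : ℂ) * (2 * Real.pi * Complex.I) := by
      push_cast; ring
    rw [this, Complex.exp_int_mul_two_pi_mul_I])
  obtain ⟨ξm, hξm, hξm'⟩ := exists_covector (T.br H2) f (-4) _ h2pi hH2f hf0 hperop (by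
    have : (2 * (Real.pi : ℂ) * Complex.I) * (-4) =
        ((-4 : ℤ) : ℂ) * (2 * Real.pi * Complex.I) := by
      push_cast; ring
    rw [this, Complex.exp_int_mul_two_pi_mul_I])
  have hξph : ξp h = 0 := by
    have := hξp' h
    rw [hH2h, map_zero] at this
    rcases mul_eq_zero.mp this.symm with h1 | h1
    · norm_num at h1
    · exact h1
  have hξmh : ξm h = 0 := by
    have := hξm' h
    rw [hH2h, map_zero] at this
    rcases mul_eq_zero.mp this.symm with h1 | h1
    · norm_num at h1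
    · exact h1
  have hξpz : ∀ s v, ξp (T.Ad (z s) v) = Complex.exp (4 * s) * ξp v := by
    intro s v
    show ξp (T.Ad (T.exp (s • H2)) v) = _
    rw [T.Ad_exp, functional_exp _ ξp (4 * s) _ v]
    intro v
    rw [map_smul, smul_apply, map_smul, hξp', smul_eq_mul]
    ring
  have hξmz : ∀ s v, ξm (T.Ad (z s) v) = Complex.exp (-(4 * s)) * ξm v := by
    intro s v
    show ξm (T.Ad (T.exp (s • H2)) v) = _
    rw [T.Ad_exp, functional_exp _ ξm (-(4 * s)) _ v]
    intro v
    rw [map_smul, smul_apply, map_smul, hξm', smul_eq_mul]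
    ring
  -- the functions
  let F : Fin 4 → G → ℂ := ![fun g => ξp (T.Ad g e), fun g => ξm (T.Ad g f),
    fun g => ξp (T.Ad g h), fun g => ξm (T.Ad g h)]
  have hhol : ∀ (ξ : E →L[ℂ] ℂ) (v : E),
      MDifferentiable 𝓘(ℂ, E) 𝓘(ℂ, ℂ) fun g : G => ξ (T.Ad g v) := by
    intro ξ v
    have h1 : Differentiable ℂ fun A : E →L[ℂ] E => ξ (A v) := by fun_prop
    exact (mdifferentiable_iff_differentiable.mpr h1).comp T.Ad_hol
  have hF0c : ∀ g s u, F 0 (z s * g * z u) = Complex.exp (4 * (s + u)) * F 0 g := by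
    intro g s u
    show ξp (T.Ad (z s * g * z u) e) = _ * ξp (T.Ad g e)
    rw [T.Ad_mul_apply, T.Ad_mul_apply, hξpz, hze, map_smul, map_smul, smul_eq_mul, ← mul_assoc,
      ← Complex.exp_add]
    congr 2
    ring
  have hF1c : ∀ g s u, F 1 (z s * g * z u) = Complex.exp (-(4 * (s + u))) * F 1 g := by
    intro g s u
    show ξm (T.Ad (z s * g * z u) f) = _ * ξm (T.Ad g f)
    rw [T.Ad_mul_apply, T.Ad_mul_apply, hξmz, hzf, map_smul, map_smul, smul_eq_mul, ← mul_assoc,
      ← Complex.exp_add]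
    congr 2
    ring
  have hF01 : F 0 1 = 1 := by
    show ξp (T.Ad 1 e) = 1
    rw [T.Ad_one]
    exact hξp
  have hF11 : F 1 1 = 1 := by
    show ξm (T.Ad 1 f) = 1
    rw [T.Ad_one]
    exact hξm
  have hexp4 : Complex.exp 4 ≠ 1 := by
    intro h1
    have h2 := congrArg norm h1
    rw [Complex.norm_exp, norm_one] at h2
    have h3 : (4 : ℂ).re = 4 := by norm_num
    rw [h3, Real.exp_eq_one_iff] at h2
    norm_num at h2
  have hexp4' : Complex.exp (-4) ≠ 1 := by
    intro h1
    rw [Complex.exp_neg, inv_eq_one] at h1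
    exact hexp4 h1
  refine ⟨z, F, hz1, hper, ?_, hF0c, hF1c, ?_, ?_, by rw [hF01]; exact one_ne_zero,
    by rw [hF11]; exact one_ne_zero, ?_, ?_, ?_, ?_⟩
  · intro i
    fin_cases i
    · exact hhol ξp e
    · exact hhol ξm f
    · exact hhol ξp h
    · exact hhol ξm h
  · intro g s u
    show ξp (T.Ad (z s * g * z u) h) = _ * ξp (T.Ad g h)
    rw [T.Ad_mul_apply, T.Ad_mul_apply, hξpz, hzh]
  · intro g s u
    show ξm (T.Ad (z s * g * z u) h) = _ * ξm (T.Ad g h)
    rw [T.Ad_mul_apply, T.Ad_mul_apply, hξmz, hzh]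
  · intro i
    fin_cases i
    · exact ⟨1, by show F 0 1 ≠ 0; rw [hF01]; exact one_ne_zero⟩
    · exact ⟨1, by show F 1 1 ≠ 0; rw [hF11]; exact one_ne_zero⟩
    · refine ⟨T.exp e, ?_⟩
      show ξp (T.Ad (T.exp e) h) ≠ 0
      rw [a1, map_sub, map_smul, hξph, hξp]
      norm_num
    · refine ⟨T.exp f, ?_⟩
      show ξm (T.Ad (T.exp f) h) ≠ 0
      rw [a5, map_add, map_smul, hξmh, hξm]
      norm_num
  · intro i
    fin_cases i
    · refine ⟨1, ?_⟩
      show ξp (T.Ad (1 * z 1 * 1⁻¹) e) ≠ 0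
      rw [one_mul, inv_one, mul_one, hξpz, hξp, mul_one]
      exact Complex.exp_ne_zero _
    · refine ⟨1, ?_⟩
      show ξm (T.Ad (1 * z 1 * 1⁻¹) f) ≠ 0
      rw [one_mul, inv_one, mul_one, hξmz, hξm, mul_one]
      exact Complex.exp_ne_zero _
    · refine ⟨T.exp e, ?_⟩
      show ξp (T.Ad (T.exp e * z 1 * (T.exp e)⁻¹) h) ≠ 0
      rw [T.Ad_mul_apply, T.Ad_mul_apply, ← T.exp_neg, a7, map_add, map_smul, hzh, hze, map_add,
        map_smul, map_smul, a1, a2, map_add, map_sub, map_smul, map_smul, map_smul, hξph, hξp,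
        one_mul]
      simp only [smul_eq_mul, mul_one]
      intro h1
      apply hexp4
      linear_combination h1 / 2
    · refine ⟨T.exp f, ?_⟩
      show ξm (T.Ad (T.exp f * z 1 * (T.exp f)⁻¹) h) ≠ 0
      rw [T.Ad_mul_apply, T.Ad_mul_apply, ← T.exp_neg, a3, map_sub, map_smul, hzh, hzf, map_sub,
        map_smul, map_smul, a5, a6, map_sub, map_add, map_smul, map_smul, map_smul, hξmh, hξm,
        one_mul]
      simp only [smul_eq_mul, mul_one]
      intro h1
      apply hexp4'
      linear_combination -h1 / 2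
  · -- elements all of whose conjugates lie in the circle are central
    intro γ hγ
    choose s hs using hγ
    set φ : G → ℂ := fun a => F 0 (a⁻¹ * γ * a) with hφ
    have hφc : Continuous φ := by
      have h1 : Continuous (F 0) := (hhol ξp e).continuous
      exact h1.comp (by fun_prop)
    have hφs : ∀ a, φ a = Complex.exp (4 * s a) := by
      intro a
      have h1 := hF0c 1 (s a) 0
      rw [hz0, mul_one, mul_one, add_zero, hF01, mul_one] at h1
      show F 0 (a⁻¹ * γ * a) = _
      rw [hs a, h1]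
    have hfin := Module.End.finite_hasEigenvalue (T.Ad γ : E →ₗ[ℂ] E)
    have hmaps : MapsTo φ univ {μ : ℂ | Module.End.HasEigenvalue (T.Ad γ : E →ₗ[ℂ] E) μ} := by
      intro a _
      rw [mem_ofPred_eq, hφs]
      apply Module.End.hasEigenvalue_of_hasEigenvector (x := T.Ad a e)
      refine ⟨?_, ?_⟩
      · rw [Module.End.mem_eigenspace_iff]
        show T.Ad γ (T.Ad a e) = _
        have h1 : γ * a = a * (a⁻¹ * γ * a) := by group
        rw [← T.Ad_mul_apply, h1, hs a, T.Ad_mul_apply, hze, map_smul, mul_comm]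
      · intro h1
        have h2 := T.Ad_inv_apply a e
        rw [h1, map_zero] at h2
        exact he0 h2.symm
    have hdisc : IsDiscrete {μ : ℂ | Module.End.HasEigenvalue (T.Ad γ : E →ₗ[ℂ] E) μ} := by
      rw [isDiscrete_iff_discreteTopology]
      have := hfin.to_subtype
      exact inferInstance
    have hconst : ∀ a, φ a = φ 1 := fun a =>
      isPreconnected_univ.constant_of_mapsTo hdisc hφc.continuousOn hmaps (mem_univ a)
        (mem_univ 1)
    set S : Set G := {g : G | ∃ k : ℤ, g = z (s 1 + k * (Real.pi * Complex.I / 2))} with hS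
    have hSfin : S.Finite := finite_quarter hz1.2 hper (s 1)
    have hmaps2 : MapsTo (fun a : G => a⁻¹ * γ * a) univ S := by
      intro a _
      have h1 : Complex.exp (4 * s a) = Complex.exp (4 * s 1) := by
        rw [← hφs, ← hφs, hconst]
      obtain ⟨k, hk⟩ := quarter_of_exp_eq h1
      exact ⟨k, by
        show a⁻¹ * γ * a = _
        rw [hs a, ← hk]⟩
    have hdisc2 : IsDiscrete S := by
      rw [isDiscrete_iff_discreteTopology]
      have := hSfin.to_subtype
      exact inferInstance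
    rw [Subgroup.mem_center_iff]
    intro a
    have h1 := isPreconnected_univ.constant_of_mapsTo hdisc2
      (f := fun a : G => a⁻¹ * γ * a) (by fun_prop) hmaps2 (mem_univ a) (mem_univ 1)
    simp only [inv_one, one_mul, mul_one] at h1
    rw [mul_assoc, inv_mul_eq_iff_eq_mul] at h1
    exact h1.symm
  · refine (finite_quarter hz1.2 hper 0).subset ?_
    rintro g ⟨hg, s, rfl⟩
    have h1 := T.Ad_eq_of_center _ hg e
    rw [hze] at h1
    have h2 : Complex.exp (s * 4) = 1 := by
      have h3 : (Complex.exp (s * 4) - 1) • e = 0 := by rw [sub_smul, h1, one_smul, sub_self]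
      rcases smul_eq_zero.mp h3 with h4 | h4
      · linear_combination h4
      · exact absurd h4 he0
    have h3 : Complex.exp (4 * s) = Complex.exp (4 * 0) := by
      rw [mul_comm 4 s, h2, mul_zero, Complex.exp_zero]
    obtain ⟨k, hk⟩ := quarter_of_exp_eq h3
    exact ⟨k, by rw [← hk]⟩

end Pool.Agent.Work.MP_970e75_an.Full
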