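import Pool.Agent.Work.MP_970e75_an.Full.Tools
import Pool.Agent.Work.MP_970e75_an.Gen.TwoFlows

/-!
Solvable nonabelian groups.
-/

set_option autoImplicit false

namespace Pool.Agent.Work.MP_970e75_an.Full

open Filter Topology Set
open scoped Manifold ContDiff Topology commutatorElement
open Pool.Agent.Work.MP_970e75_an Pool.Agent.Work.MP_970e75_an.Gen

theorem stmt_SV_of (hAS : Stmt_AS) (hCR : Stmt_CR) (hCL : Stmt_CL) : Stmt_SV := by
  intro E _ _ _ G _ _ _ _ _ T _ hS hna Γ hΓ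
  have hTG : IsTopologicalGroup G := topologicalGroup_of_lieGroup 𝓘(ℂ, E) ω
  obtain ⟨X', e', U', hXU', hYe', hXe1', hXe2', hcase'⟩ := hAS T.LieAlg (by
    obtain ⟨X, Y, h⟩ := hna
    refine ⟨T.toL X, T.toL Y, ?_⟩
    rw [T.lie_toL]
    intro h0
    exact h ((LinearEquiv.map_eq_zero_iff T.toL).mp h0))
  -- transport
  obtain ⟨X, rfl⟩ := T.toL.surjective X'
  obtain ⟨e, rfl⟩ := T.toL.surjective e'
  set U : Submodule ℂ E := U'.toSubmodule.comap T.toL.toLinearMap with hU
  have hmemU : ∀ v, v ∈ U ↔ T.toL v ∈ U' := fun v => Iff.rfl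
  have hXU : ∀ u ∈ U, T.br X u = 0 := by
    intro u hu
    have := hXU' (T.toL u) hu
    rw [T.lie_toL] at this
    exact (LinearEquiv.map_eq_zero_iff T.toL).mp this
  have hUstab : ∀ Y, ∀ u ∈ U, T.br Y u ∈ U := by
    intro Y u hu
    have : ⁅T.toL Y, T.toL u⁆ ∈ U' := U'.lie_mem hu
    rw [T.lie_toL] at this
    exact this
  have hYe : ∀ Y, ∃ c : ℂ, T.br Y e - c • e ∈ U := by
    intro Y
    obtain ⟨c, hc⟩ := hYe' (T.toL Y)
    refine ⟨c, ?_⟩
    rw [T.lie_toL, ← map_smul, ← map_sub] at hc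
    exact hc
  set w : E := T.br X e with hw
  have hwU : w ∈ U := by
    rw [T.lie_toL] at hXe1'
    exact hXe1'
  have hw0 : w ≠ 0 := by
    rw [T.lie_toL] at hXe2'
    intro h
    apply hXe2'
    rw [← hw, h, map_zero]
  have he0 : e ≠ 0 := by
    rintro rfl
    exact hw0 (by rw [hw, map_zero])
  have heU : e ∉ U := fun h => hw0 (hXU e h)
  -- functionals
  obtain ⟨ζ, hζe, hζU⟩ : ∃ ζ : E →L[ℂ] ℂ, ζ e = 1 ∧ ∀ u ∈ U, ζ u = 0 := by
    obtain ⟨f, hf1, hf2⟩ := Submodule.exists_le_ker_of_notMem heU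
    refine ⟨LinearMap.toContinuousLinearMap ((f e)⁻¹ • f), ?_, ?_⟩
    · show (f e)⁻¹ * f e = 1
      exact inv_mul_cancel₀ hf1
    · intro u hu
      show (f e)⁻¹ * f u = 0
      rw [show f u = 0 from hf2 hu, mul_zero]
  obtain ⟨ξ, hξ⟩ : ∃ ξ : E →L[ℂ] ℂ, ξ w = 1 := by
    obtain ⟨g, -, hg⟩ := exists_dual_vector ℂ w (norm_ne_zero_iff.mpr hw0)
    refine ⟨(‖w‖ : ℂ)⁻¹ • g, ?_⟩
    show (‖w‖ : ℂ)⁻¹ * g w = 1
    rw [hg]
    apply inv_mul_cancel₀
    simpa using hw0
  -- stability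
  have hAdU : ∀ g : G, ∀ u ∈ U, T.Ad g u ∈ U := fun g => T.Ad_mem U hUstab g
  have hAde : ∀ g : G, ∃ c : ℂ, T.Ad g e - c • e ∈ U := by
    intro g
    have h1 : ∀ Y : E, ∀ v ∈ U ⊔ ℂ ∙ e, T.br Y v ∈ U ⊔ ℂ ∙ e := by
      intro Y v hv
      obtain ⟨u, hu, y, hy, rfl⟩ := Submodule.mem_sup.mp hv
      obtain ⟨c, rfl⟩ := Submodule.mem_span_singleton.mp hy
      rw [map_add, map_smul]
      apply Submodule.add_mem
      · exact Submodule.mem_sup_left (hUstab Y u hu)
      · apply Submodule.smul_mem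
        obtain ⟨d, hd⟩ := hYe Y
        have : T.br Y e = (T.br Y e - d • e) + d • e := by abel
        rw [this]
        exact Submodule.add_mem_sup hd (Submodule.mem_span_singleton.mpr ⟨d, rfl⟩)
    have h2 : T.Ad g e ∈ U ⊔ ℂ ∙ e := T.Ad_mem _ h1 g e
      (Submodule.mem_sup_right (Submodule.mem_span_singleton_self e))
    obtain ⟨u, hu, y, hy, hy2⟩ := Submodule.mem_sup.mp h2
    obtain ⟨c, rfl⟩ := Submodule.mem_span_singleton.mp hy
    refine ⟨c, ?_⟩
    rw [← hy2, add_sub_cancel_right]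
    exact hu
  set lam : G → ℂ := fun g => ζ (T.Ad g e) with hlam
  have hAde' : ∀ g : G, T.Ad g e - lam g • e ∈ U := by
    intro g
    obtain ⟨c, hc⟩ := hAde g
    have h1 : lam g = c := by
      have h2 := hζU _ hc
      rw [map_sub, map_smul, hζe, smul_eq_mul, mul_one, sub_eq_zero] at h2
      exact h2
    rw [h1]
    exact hc
  have hlam0 : ∀ g, lam g ≠ 0 := by
    intro g h
    have h1 := hAde' g
    rw [h, zero_smul, sub_zero] at h1
    have h2 := hAdU g⁻¹ _ h1
    rw [T.Ad_inv_apply] at h2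
    exact heU h2
  have hlam_hol : MDifferentiable 𝓘(ℂ, E) 𝓘(ℂ, ℂ) lam := by
    have h1 : Differentiable ℂ fun A : E →L[ℂ] E => ζ (A e) := by fun_prop
    exact (mdifferentiable_iff_differentiable.mpr h1).comp T.Ad_hol
  set tL : G → ℂ := fun g => ξ (T.Ad g e) / lam g with htL
  have htL_hol : MDifferentiable 𝓘(ℂ, E) 𝓘(ℂ, ℂ) tL := by
    have h1 : Differentiable ℂ fun A : E →L[ℂ] E => ξ (A e) := by fun_prop
    have h2 : MDifferentiable 𝓘(ℂ, E) 𝓘(ℂ, ℂ) fun g : G => ξ (T.Ad g e) :=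
      (mdifferentiable_iff_differentiable.mpr h1).comp T.Ad_hol
    have h3 : MDifferentiable 𝓘(ℂ, E) 𝓘(ℂ, ℂ) fun g : G => (lam g)⁻¹ := by
      intro g
      have h5 : DifferentiableAt ℂ (fun z : ℂ => z⁻¹) (lam g) := differentiableAt_inv (hlam0 g)
      exact (mdifferentiableAt_iff_differentiableAt.mpr h5).comp g (hlam_hol g)
    have h4 : MDifferentiable 𝓘(ℂ, E) 𝓘(ℂ, ℂ) fun g : G => ξ (T.Ad g e) * (lam g)⁻¹ := h2.mul h3
    exact h4
  -- left multiplication by `exp (s V)` where `br V` kills `U` and maps `e` into `U`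
  have hleft : ∀ (V : E) (c : ℂ), (∀ u ∈ U, T.br V u = 0) → T.br V e = c • w →
      ∀ (s : ℂ) (g : G), tL (T.exp (s • V) * g) = tL g + s * c := by
    intro V c hVU hVe s g
    have h1 : T.Ad (T.exp (s • V)) (T.Ad g e) = T.Ad g e + (s * c * lam g) • w := by
      have h2 : T.br (s • V) (T.Ad g e) = (s * c * lam g) • w := by
        have h3 : T.Ad g e = lam g • e + (T.Ad g e - lam g • e) := by abel
        rw [h3, map_smul, smul_apply, map_add, map_smul, hVe, hVU _ (hAde' g), add_zero,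
          smul_smul, smul_smul]
        congr 1
        ring
      rw [T.Ad_exp]
      apply exp_apply_of_apply_apply_eq_zero _ _ _ h2
      rw [map_smul, map_smul, smul_apply, hVU w hwU, smul_zero, smul_zero]
    have h4 : T.Ad (T.exp (s • V) * g) e = T.Ad g e + (s * c * lam g) • w := by
      rw [T.Ad_mul_apply, h1]
    have h5 : lam (T.exp (s • V) * g) = lam g := by
      show ζ (T.Ad (T.exp (s • V) * g) e) = lam g
      rw [h4, map_add, map_smul, hζU w hwU, smul_zero, add_zero]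
    show ξ (T.Ad (T.exp (s • V) * g) e) / lam (T.exp (s • V) * g) = _
    rw [h5, h4, map_add, map_smul, hξ, smul_eq_mul, mul_one, add_div,
      mul_div_cancel_right₀ _ (hlam0 g)]
  have hright : ∀ g h : G, T.Ad h e = e → tL (g * h) = tL g := by
    intro g h hh
    have h1 : T.Ad (g * h) e = T.Ad g e := by rw [T.Ad_mul_apply, hh]
    show ξ (T.Ad (g * h) e) / ζ (T.Ad (g * h) e) = ξ (T.Ad g e) / ζ (T.Ad g e)
    rw [h1]
  have hze : ∀ s : ℂ, T.Ad (T.exp (s • e)) e = e := by
    intro s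
    rw [T.Ad_exp]
    apply exp_apply_of_apply_eq_zero
    rw [map_smul, smul_apply, T.br_self, smul_zero]
  rcases hcase' with ⟨A', hA'⟩ | hcen'
  · -- the left flow
    obtain ⟨A, rfl⟩ := T.toL.surjective A'
    have hA : T.br A X = X := by
      rw [T.lie_toL] at hA'
      exact T.toL.injective hA'
    refine hCL E G hS (fun s => T.exp (s • X)) (fun s => T.exp (s • e)) tL (T.isOneParam X)
      (T.isOneParam e) htL_hol ?_ ?_ ?_ (T.exists_exp_ne_one e he0) Γ hΓ
    · intro s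
      left
      have h1 : T.Ad (T.exp ((Real.log 2 : ℂ) • A)) (s • X) = (2 * s) • X := by
        rw [map_smul, T.Ad_exp_smul A X 1 (Real.log 2) (by rw [hA, one_smul]), mul_one, smul_smul]
        congr 1
        have : Complex.exp (Real.log 2 : ℂ) = 2 := by
          rw [← Complex.ofReal_exp, Real.exp_log (by norm_num)]
          norm_num
        rw [this, mul_comm]
      have h2 := T.exp_Ad (T.exp ((Real.log 2 : ℂ) • A)) (s • X)
      rw [h1, two_mul, T.exp_add] at h2
      have h3 : T.exp (s • X) = ⁅T.exp ((Real.log 2 : ℂ) • A), T.exp (s • X)⁆ := by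
        rw [commutatorElement_def, ← h2, mul_inv_cancel_right]
      rw [h3]
      exact Subgroup.commutator_mem_commutator (Subgroup.mem_top _) (Subgroup.mem_top _)
    · intro s g
      have := hleft X 1 hXU (by rw [one_smul]) s g
      rw [mul_one] at this
      exact this
    · intro g s
      exact hright g _ (hze s)
  · -- the right flow
    have hcen : ∀ Y Z, T.br (T.br Y X) Z = 0 := by
      intro Y Z
      have := hcen' (T.toL Y) (T.toL Z)
      rw [T.lie_toL, T.lie_toL] at this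
      exact (LinearEquiv.map_eq_zero_iff T.toL).mp this
    have hwcen : ∀ Z, T.br w Z = 0 := by
      intro Z
      rw [hw, T.br_skew X e, map_neg, neg_apply, hcen, neg_zero]
    have hwcen' : ∀ Z, T.br Z w = 0 := by
      intro Z
      rw [T.br_skew, hwcen, neg_zero]
    set tR : G → ℂ := fun g => - tL g⁻¹ with htR
    have hinv : ∀ (V : E) (s : ℂ), (T.exp (s • V))⁻¹ = T.exp ((-s) • V) := by
      intro V s
      rw [neg_smul, T.exp_neg]
    refine hCR E G hS (fun s => T.exp (s • X)) (fun s => T.exp (s • w)) (fun s => T.exp (s • e))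
      tR (T.isOneParam X) (T.isOneParam w) (T.isOneParam e) (htL_hol.comp
        (mdiff_inv mdifferentiable_id)).neg ?_ ?_ ?_ ?_ (T.exists_exp_ne_one w hw0)
        (T.exists_exp_ne_one e he0) Γ hΓ
    · intro s u
      apply T.exp_commute
      rw [map_smul, map_smul, smul_apply, hwcen', smul_zero, smul_zero]
    · intro g s
      show - tL (g * T.exp (s • X))⁻¹ = - tL g⁻¹ + s
      rw [mul_inv_rev, hinv, hleft X 1 hXU (by rw [one_smul])]
      ring
    · intro g s
      show - tL (g * T.exp (s • w))⁻¹ = - tL g⁻¹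
      rw [mul_inv_rev, hinv, hleft w 0 (fun u _ => hwcen u) (by rw [hwcen, zero_smul])]
      ring
    · intro s g
      show - tL (T.exp (s • e) * g)⁻¹ = - tL g⁻¹
      rw [mul_inv_rev, hinv, hright _ _ (hze (-s))]

end Pool.Agent.Work.MP_970e75_an.Full
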