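import Pool.Agent.Work.MP_970e75_an.Full.Final
import Pool.Agent.Work.MP_970e75_an.Full.N1
import Pool.Agent.Work.MP_970e75_an.Full.SV
import Pool.Agent.Work.MP_970e75_an.Full.CLM
import Pool.Agent.Work.MP_970e75_an_helper39.LXFinal
import Pool.Agent.Work.MP_970e75_an_helper76.A2
import Pool.Agent.Work.MP_970e75_an_helper76.AS
import Pool.Agent.Work.MP_970e75_an_helper76.HU
import Pool.Agent.Work.MP_970e75_an_helper76.SE
import Pool.Agent.Work.MP_970e75_an_helper79.AB
import Pool.Agent.Work.MP_970e75_an_helper79.G0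
import Pool.Agent.Work.MP_970e75_an_helper80.SU
import Pool.Agent.Work.MP_970e75_an_helper80.IP
import Pool.Agent.Work.MP_970e75_an_helper80.Q

/-!
Discrete subgroups of Stein complex Lie groups of dimension at least two are tame.
-/

set_option autoImplicit false

namespace Pool.Agent.Work.MP_970e75_an.Full

open Pool.Agent.Work.MP_970e75_an_helper76

theorem stmt_Main : Stmt_Main :=
  stmt_Main_of stmt_LX stmt_G0 stmt_A2 (stmt_SV_of stmt_AS stmt_CR stmt_CL)
    (stmt_AB_of stmt_CR stmt_CM) (stmt_NS_of stmt_N1 (stmt_Q_of stmt_HU stmt_SE) stmt_ID stmt_IP)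

end Pool.Agent.Work.MP_970e75_an.Full
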