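import Pool.Agent.Work.MP_970e75_an.Full.CR

/-!
Groups containing a copy of `sl₂`: assembly.
-/

set_option autoImplicit false
set_option linter.unusedSectionVars false

namespace Pool.Agent.Work.MP_970e75_an.Full

open Filter Topology Set MeasureTheory
open scoped Manifold ContDiff Topology Pointwise
open Pool.Agent.Work.MP_970e75_an Pool.Agent.Work.MP_970e75_an.Gen

section

variable {E : Type} [NormedAddCommGroup E] [NormedSpace ℂ E] {G : Type}
    [TopologicalSpace G] [ChartedSpace E G]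

/-- The second step: an automorphism making `q'` proper on `D` suffices. -/
theorem isTame_of_proper (hIP : Stmt_IP) {W' : Type} [NormedAddCommGroup W'] [NormedSpace ℂ W']
    (q' : G → W') (θ' : ℂ → G → G) (h0 : ∀ g, θ' 0 g = g)
    (hadd : ∀ s t g, θ' (s + t) g = θ' s (θ' t g))
    (hq : ∀ s g, q' (θ' s g) = q' g) (l : Filter ℂ) [l.NeBot]
    (hesc : ∀ (g : G) (K : Set G), IsCompact K → ∀ᶠ s in l, θ' s g ∉ K)
    (hol2 : ∀ h : W' → ℂ, Differentiable ℂ h →
      MDifferentiable 𝓘(ℂ, E) 𝓘(ℂ, E) (fun g => θ' (h (q' g)) g))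
    (T : G ≃ G) (hT : IsAutomorphism E T)
    (D : Set G) (hfin : ∀ R : ℝ, {d | d ∈ D ∧ ‖q' (T d)‖ ≤ R}.Finite) :
    IsTame E D := by
  classical
  intro ρ hρ ζ
  set P : Set W' := (fun d => q' (T d)) '' D with hP
  have hPfin : ∀ R : ℝ, {w ∈ P | ‖w‖ ≤ R}.Finite := by
    intro R
    refine ((hfin R).image (fun d => q' (T d))).subset ?_
    rintro w ⟨⟨d, hd, rfl⟩, hn⟩
    exact ⟨d, ⟨hd, hn⟩, rfl⟩
  have hval : ∀ w : W', ∃ v : ℂ, ∀ d ∈ D, q' (T d) = w → ζ d ≤ ρ (θ' v (T d)) := by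
    intro w
    have hfinw : {d | d ∈ D ∧ q' (T d) = w}.Finite := by
      refine (hfin ‖w‖).subset ?_
      rintro d ⟨hd, rfl⟩
      exact ⟨hd, le_rfl⟩
    have hev : ∀ᶠ s in l, ∀ d ∈ hfinw.toFinset, θ' s (T d) ∉ {g | ρ g ≤ ζ d} := by
      rw [Finset.eventually_all]
      intro d _
      exact hesc (T d) _ (hρ.2.2 (ζ d))
    obtain ⟨v, hv⟩ := hev.exists
    refine ⟨v, ?_⟩
    intro d hd hw
    have := hv d (hfinw.mem_toFinset.mpr ⟨hd, hw⟩)
    simp only [mem_ofPred_eq, not_le] at this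
    exact this.le
  choose v hv using hval
  obtain ⟨h, hh, hhv⟩ := hIP W' P hPfin v
  refine ⟨T.trans (flowEquiv q' θ' h0 hadd hq h), ?_, ?_⟩
  · exact hT.trans ⟨hol2 h hh, hol2 _ hh.neg⟩
  · intro d hd
    show ζ d ≤ ρ (θ' (h (q' (T d))) (T d))
    rw [hhv _ ⟨d, hd, rfl⟩]
    exact hv _ d hd rfl

end

theorem le_log_of_exp_mul_le {r a M : ℝ} (ha : 0 < a) (h : Real.exp r * a ≤ M) :
    r ≤ Real.log (M / a) := by
  have h1 : Real.exp r ≤ M / a := (le_div_iff₀ ha).mpr h
  have h2 : 0 < M / a := (Real.exp_pos r).trans_le h1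
  rwa [Real.le_log_iff_exp_le h2]

section

variable {G : Type} [TopologicalSpace G] [Group G]

/-- The properness of `(s, u) ↦ z(s) x z(u)` modulo periods. -/
theorem exists_re_bound {z : ℂ → G} {F : Fin 4 → G → ℂ} (hF : ∀ i, Continuous (F i))
    (h0 : ∀ g s u, F 0 (z s * g * z u) = Complex.exp (4 * (s + u)) * F 0 g)
    (h1 : ∀ g s u, F 1 (z s * g * z u) = Complex.exp (-(4 * (s + u))) * F 1 g)
    (h2 : ∀ g s u, F 2 (z s * g * z u) = Complex.exp (4 * s) * F 2 g)
    (h3 : ∀ g s u, F 3 (z s * g * z u) = Complex.exp (-(4 * s)) * F 3 g)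
    (x : G) (hx : ∀ i, F i x ≠ 0) (K : Set G) (hK : IsCompact K) :
    ∃ C : ℝ, ∀ s u, z s * x * z u ∈ K → |s.re| ≤ C ∧ |u.re| ≤ C := by
  have hM : ∀ i, ∃ M : ℝ, ∀ g ∈ K, ‖F i g‖ ≤ M := fun i =>
    hK.exists_bound_of_continuousOn (hF i).continuousOn
  choose M hM using hM
  set L : Fin 4 → ℝ := fun i => |Real.log (M i / ‖F i x‖)| with hL
  have hpos : ∀ i, 0 < ‖F i x‖ := fun i => norm_pos_iff.mpr (hx i)
  refine ⟨L 0 + L 1 + L 2 + L 3, ?_⟩
  intro s u hsu
  have e0 := hM 0 _ hsu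
  have e1 := hM 1 _ hsu
  have e2 := hM 2 _ hsu
  have e3 := hM 3 _ hsu
  rw [h0, norm_mul, Complex.norm_exp] at e0
  rw [h1, norm_mul, Complex.norm_exp] at e1
  rw [h2, norm_mul, Complex.norm_exp] at e2
  rw [h3, norm_mul, Complex.norm_exp] at e3
  have f0 := (le_log_of_exp_mul_le (hpos 0) e0).trans (le_abs_self _)
  have f1 := (le_log_of_exp_mul_le (hpos 1) e1).trans (le_abs_self _)
  have f2 := (le_log_of_exp_mul_le (hpos 2) e2).trans (le_abs_self _)
  have f3 := (le_log_of_exp_mul_le (hpos 3) e3).trans (le_abs_self _)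
  have g0 : (4 * (s + u)).re = 4 * (s.re + u.re) := by simp
  have g1 : (-(4 * (s + u))).re = -(4 * (s.re + u.re)) := by simp
  have g2 : (4 * s).re = 4 * s.re := by simp
  have g3 : (-(4 * s)).re = -(4 * s.re) := by simp
  rw [g0] at f0
  rw [g1] at f1
  rw [g2] at f2
  rw [g3] at f3
  have n0 : 0 ≤ L 0 := abs_nonneg _
  have n1 : 0 ≤ L 1 := abs_nonneg _
  have n2 : 0 ≤ L 2 := abs_nonneg _
  have n3 : 0 ≤ L 3 := abs_nonneg _
  have f0' : 4 * (s.re + u.re) ≤ L 0 := f0
  have f1' : -(4 * (s.re + u.re)) ≤ L 1 := f1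
  have f2' : 4 * s.re ≤ L 2 := f2
  have f3' : -(4 * s.re) ≤ L 3 := f3
  constructor
  · rw [abs_le]
    constructor <;> linarith
  · rw [abs_le]
    constructor <;> linarith

/-- The part `|Re s| ≤ C` of a circle subgroup is compact. -/
theorem isCompact_strip {z : ℂ → G} (hz : Continuous z) (hadd : ∀ s t, z (s + t) = z s * z t)
    (hper : z (2 * Real.pi * Complex.I) = 1) (C : ℝ) :
    IsCompact {g : G | ∃ s : ℂ, |s.re| ≤ C ∧ g = z s} := by
  have hper' : ∀ s : ℂ, ∀ n : ℤ, z (s + n * (2 * Real.pi * Complex.I)) = z s := by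
    have hz0 := oneParam_zero hadd
    have hn : ∀ n : ℕ, z (n * (2 * Real.pi * Complex.I)) = 1 := by
      intro n
      induction n with
      | zero => simp [hz0]
      | succ n ih =>
        have : ((n + 1 : ℕ) : ℂ) * (2 * Real.pi * Complex.I) =
            n * (2 * Real.pi * Complex.I) + 2 * Real.pi * Complex.I := by push_cast; ring
        rw [this, hadd, ih, hper, mul_one]
    have hi : ∀ n : ℤ, z (n * (2 * Real.pi * Complex.I)) = 1 := by
      intro n
      obtain ⟨m, rfl | rfl⟩ := n.eq_nat_or_neg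
      · exact_mod_cast hn m
      · have : ((-(m : ℤ) : ℤ) : ℂ) * (2 * Real.pi * Complex.I) =
          -(m * (2 * Real.pi * Complex.I)) := by push_cast; ring
        rw [this, oneParam_neg hadd, hn, inv_one]
    intro s n
    rw [hadd, hi, mul_one]
  have hK : IsCompact ((Icc (-C) C) ×ˢ (Icc (0 : ℝ) (2 * Real.pi))) :=
    isCompact_Icc.prod isCompact_Icc
  have hc : Continuous fun p : ℝ × ℝ => z (p.1 + p.2 * Complex.I) := by
    apply hz.comp
    fun_prop
  convert hK.image hc using 1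
  ext g
  constructor
  · rintro ⟨s, hs, rfl⟩
    have h2π : (0 : ℝ) < 2 * Real.pi := by positivity
    set n : ℤ := ⌊s.im / (2 * Real.pi)⌋ with hn
    refine ⟨(s.re, s.im - n * (2 * Real.pi)), ⟨abs_le.mp hs, ?_, ?_⟩, ?_⟩
    · have h1 : (n : ℝ) ≤ s.im / (2 * Real.pi) := Int.floor_le _
      rw [le_div_iff₀ h2π] at h1
      show 0 ≤ s.im - n * (2 * Real.pi)
      linarith
    · have h1 : s.im / (2 * Real.pi) < n + 1 := Int.lt_floor_add_one _
      rw [div_lt_iff₀ h2π] at h1
      show s.im - n * (2 * Real.pi) ≤ 2 * Real.pi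
      linarith
    · show z ((s.re : ℂ) + ((s.im - n * (2 * Real.pi) : ℝ) : ℂ) * Complex.I) = z s
      rw [← hper' ((s.re : ℂ) + ((s.im - n * (2 * Real.pi) : ℝ) : ℂ) * Complex.I) n]
      congr 1
      conv_rhs => rw [← Complex.re_add_im s]
      push_cast
      ring
  · rintro ⟨⟨r, θ⟩, ⟨h1, -⟩, rfl⟩
    refine ⟨r + θ * Complex.I, ?_, rfl⟩
    simp only [Complex.add_re, Complex.ofReal_re, Complex.mul_re, Complex.I_re, mul_zero,
      Complex.ofReal_im, Complex.I_im, mul_one, sub_self, add_zero]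
    exact abs_le.mpr h1

end

/-- Block NS. -/
theorem stmt_NS_of (hN1 : Stmt_N1) (hQ : Stmt_Q) (hID : Stmt_ID) (hIP : Stmt_IP) : Stmt_NS := by
  classical
  intro E _ _ _ G _ _ _ _ _ T hS hsl Γ hΓ
  obtain ⟨N, ι, hι, hιc⟩ := id hS
  have hTG : IsTopologicalGroup G := topologicalGroup_of_lieGroup 𝓘(ℂ, E) ω
  have hsc : SecondCountableTopology G := hιc.isEmbedding.secondCountableTopology
  have hlc : LocallyCompactSpace G := hιc.locallyCompactSpace
  have ht2 : T2Space G := hιc.isEmbedding.t2Space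
  obtain ⟨z, F, hz, hper, hFhol, hF0, hF1, hF2, hF3, hF01, hF11, hFa, hFc, hcen, hfinT⟩ :=
    hN1 E G T hsl
  have hFcont : ∀ i, Continuous (F i) := fun i => (hFhol i).continuous
  have hz0 := oneParam_zero hz.2
  have hzneg := oneParam_neg hz.2
  have hzc : Continuous z := hz.1.continuous
  -- the circle is closed
  have hprop : ∀ K : Set G, IsCompact K → ∃ C : ℝ, ∀ s, z s ∈ K → |s.re| ≤ C := by
    intro K hK
    obtain ⟨M0, hM0⟩ := hK.exists_bound_of_continuousOn (hFcont 0).continuousOn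
    obtain ⟨M1, hM1⟩ := hK.exists_bound_of_continuousOn (hFcont 1).continuousOn
    refine ⟨|Real.log (M0 / ‖F 0 1‖)| + |Real.log (M1 / ‖F 1 1‖)|, ?_⟩
    intro s hs
    have e : z s = z s * 1 * z 0 := by rw [hz0, mul_one, mul_one]
    have e0 := hM0 _ hs
    have e1 := hM1 _ hs
    rw [e, hF0, norm_mul, Complex.norm_exp] at e0
    rw [e, hF1, norm_mul, Complex.norm_exp] at e1
    have f0 := (le_log_of_exp_mul_le (norm_pos_iff.mpr hF01) e0).trans (le_abs_self _)
    have f1 := (le_log_of_exp_mul_le (norm_pos_iff.mpr hF11) e1).trans (le_abs_self _)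
    have g0 : (4 * (s + 0)).re = 4 * s.re := by simp
    have g1 : (-(4 * (s + 0))).re = -(4 * s.re) := by simp
    rw [g0] at f0
    rw [g1] at f1
    have n0 := abs_nonneg (Real.log (M0 / ‖F 0 1‖))
    have n1 := abs_nonneg (Real.log (M1 / ‖F 1 1‖))
    rw [abs_le]
    constructor <;> linarith
  obtain ⟨W, _, _, _, Q, hQhol, hQinv, hQsep, hQprop⟩ := hQ E G hS z hz hper hprop
  have hQc : Continuous Q := hQhol.continuous
  -- nontriviality
  have hz1 : ∃ s, z s ≠ 1 := by
    by_contra hcon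
    push Not at hcon
    obtain ⟨C, hC⟩ := hprop {1} isCompact_singleton
    have h1 := hC ((|C| + 1 : ℝ) : ℂ) (by rw [mem_singleton_iff]; exact hcon _)
    rw [Complex.ofReal_re, abs_of_pos (by positivity)] at h1
    have := le_abs_self C
    linarith
  -- generic point
  have hcountΓ : Countable Γ := TopologicalSpace.separableSpace_iff_countable.mp inferInstance
  let O : (Fin 4 ⊕ Fin 4) ⊕ Γ → Set G := fun i =>
    match i with
    | .inl (.inl i) => {a | F i a ≠ 0}
    | .inl (.inr i) => {a | F i (a * z 1 * a⁻¹) ≠ 0}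
    | .inr γ => if (γ : G) ∈ Subgroup.center G ∧ ∃ s, (γ : G) = z s then univ else
        {a | Q (a⁻¹ * γ * a) - Q 1 ≠ 0}
  have hOopen : ∀ i, IsOpen (O i) := by
    rintro ((i | i) | γ)
    · exact isOpen_ne_fun (hFcont i) continuous_const
    · refine isOpen_ne_fun ((hFcont i).comp ?_) continuous_const
      fun_prop
    · show IsOpen (if (γ : G) ∈ Subgroup.center G ∧ ∃ s, (γ : G) = z s then univ else
        {a | Q (a⁻¹ * γ * a) - Q 1 ≠ 0})
      split_ifs
      · exact isOpen_univ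
      · refine isOpen_ne_fun ((hQc.comp ?_).sub continuous_const) continuous_const
        fun_prop
  have hOdense : ∀ i, Dense (O i) := by
    rintro ((i | i) | γ)
    · exact hID E G ℂ (F i) (hFhol i) (hFa i)
    · refine hID E G ℂ (fun a => F i (a * z 1 * a⁻¹)) ((hFhol i).comp ?_) (hFc i)
      exact mdiff_mul (mdiff_mul mdifferentiable_id mdifferentiable_const)
        (mdiff_inv mdifferentiable_id)
    · show Dense (if (γ : G) ∈ Subgroup.center G ∧ ∃ s, (γ : G) = z s then univ else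
        {a | Q (a⁻¹ * γ * a) - Q 1 ≠ 0})
      split_ifs with hγ
      · exact dense_univ
      · refine hID E G W (fun a => Q (a⁻¹ * γ * a) - Q 1) ?_ ?_
        · have h1 : MDifferentiable 𝓘(ℂ, E) 𝓘(ℂ, W) fun a : G => Q (a⁻¹ * γ * a) :=
            hQhol.comp (mdiff_mul (mdiff_mul (mdiff_inv mdifferentiable_id)
              mdifferentiable_const) mdifferentiable_id)
          exact h1.sub mdifferentiable_const
        · by_contra hcon
          push Not at hcon
          apply hγ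
          have h1 : ∀ a : G, ∃ s, a⁻¹ * γ * a = z s := by
            intro a
            obtain ⟨s, hs⟩ := hQsep 1 (a⁻¹ * γ * a) (sub_eq_zero.mp (hcon a)).symm
            exact ⟨s, by rw [hs, one_mul]⟩
          refine ⟨hcen _ h1, ?_⟩
          obtain ⟨s, hs⟩ := h1 1
          exact ⟨s, by rw [← hs]; simp⟩
  have hbaire : Dense (⋂ i, O i) := dense_iInter_of_isOpen hOopen hOdense
  obtain ⟨a, ha⟩ := hbaire.nonempty
  have ha' := mem_iInter.mp ha
  have ha1 : ∀ i, F i a ≠ 0 := fun i => ha' (.inl (.inl i))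
  have ha2 : ∀ i, F i (a * z 1 * a⁻¹) ≠ 0 := fun i => ha' (.inl (.inr i))
  have ha3 : ∀ γ ∈ Γ, (∃ s, a⁻¹ * γ * a = z s) → γ ∈ Subgroup.center G ∧ ∃ s, γ = z s := by
    intro γ hγ hs
    by_contra hcon
    have h1 := ha' (.inr ⟨γ, hγ⟩)
    have h2 : O (.inr ⟨γ, hγ⟩) = {a | Q (a⁻¹ * γ * a) - Q 1 ≠ 0} := if_neg hcon
    rw [h2] at h1
    apply h1
    obtain ⟨s, hs⟩ := hs
    have h3 := hQinv 1 s
    rw [one_mul] at h3
    rw [hs, h3, sub_self]
  -- compactness
  have hstrip := isCompact_strip hzc hz.2 hper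
  have hb1 := exists_re_bound hFcont hF0 hF1 hF2 hF3 a ha1
  have hb2 := exists_re_bound hFcont hF0 hF1 hF2 hF3 (a * z 1 * a⁻¹) ha2
  let _ : MeasurableSpace G := borel G
  have hBG : BorelSpace G := ⟨rfl⟩
  set μ : Measure G := (Measure.haar : Measure G).inv with hμ
  let Fl : FlowData G μ W :=
    { q := fun g => Q (g * a)
      p := fun g => ‖Q g‖
      θ := fun s g => g * (a * z s * a⁻¹)
      q_cont := hQc.comp (continuous_id.mul continuous_const)
      p_cont := hQc.norm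
      θ_cont := continuous_snd.mul ((continuous_const.mul (hzc.comp continuous_fst)).mul
        continuous_const)
      θ_zero := fun g => by rw [hz0, mul_one, mul_inv_cancel, mul_one]
      θ_add := fun s u g => by
        rw [add_comm, hz.2]
        simp only [mul_assoc, inv_mul_cancel_left]
      θ_meas := fun s => measurePreserving_mul_right μ (a * z s * a⁻¹)
      q_inv := fun s g => by
        rw [← hQinv (g * a) s]
        congr 1
        simp only [mul_assoc, inv_mul_cancel, mul_one]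
      compact := fun R => by
        obtain ⟨K, hK, hKR⟩ := hQprop R
        obtain ⟨C, hC⟩ := hb1 (K⁻¹ * K) (hK.inv.mul hK)
        have hcl : IsClosed {g : G | ‖Q (g * a)‖ ≤ R ∧ ‖Q g‖ ≤ R} :=
          (isClosed_le (hQc.comp (continuous_id.mul continuous_const)).norm
            continuous_const).inter (isClosed_le hQc.norm continuous_const)
        refine (hK.mul (hstrip C)).of_isClosed_subset hcl ?_
        rintro g ⟨h1, h2⟩
        obtain ⟨s1, hs1⟩ := hKR _ h1
        obtain ⟨s2, hs2⟩ := hKR _ h2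
        have h3 : z (-s2) * a * z s1 ∈ K⁻¹ * K := by
          refine ⟨(g * z s2)⁻¹, inv_mem_inv.mpr hs2, g * a * z s1, hs1, ?_⟩
          show (g * z s2)⁻¹ * (g * a * z s1) = _
          rw [hzneg]
          group
        obtain ⟨h4, -⟩ := hC _ _ h3
        refine ⟨g * z s2, hs2, z (-s2), ⟨-s2, h4, rfl⟩, ?_⟩
        show g * z s2 * z (-s2) = g
        rw [hzneg, mul_inv_cancel_right]
      escape := fun M => by
        obtain ⟨K, hK, hKR⟩ := hQprop M
        obtain ⟨C, hC⟩ := hb2 (K⁻¹ * K) (hK.inv.mul hK)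
        obtain ⟨B, hB⟩ := (hK.mul (hstrip C)).exists_bound_of_continuousOn
          (hQc.comp (continuous_id.mul continuous_const) :
            Continuous fun g : G => Q (g * a)).continuousOn
        refine ⟨B + 1, 1, ?_⟩
        intro g h1 h2
        obtain ⟨s1, hs1⟩ := hKR _ h1
        obtain ⟨s2, hs2⟩ := hKR _ h2
        have h3 : z (-s1) * (a * z 1 * a⁻¹) * z s2 ∈ K⁻¹ * K := by
          refine ⟨(g * z s1)⁻¹, inv_mem_inv.mpr hs1, g * (a * z 1 * a⁻¹) * z s2, hs2, ?_⟩
          show (g * z s1)⁻¹ * (g * (a * z 1 * a⁻¹) * z s2) = _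
          rw [hzneg]
          group
        obtain ⟨h4, -⟩ := hC _ _ h3
        have h5 : g ∈ K * {g : G | ∃ s : ℂ, |s.re| ≤ C ∧ g = z s} := by
          refine ⟨g * z s1, hs1, z (-s1), ⟨-s1, h4, rfl⟩, ?_⟩
          show g * z s1 * z (-s1) = g
          rw [hzneg, mul_inv_cancel_right]
        exact lt_of_le_of_lt (hB g h5) (lt_add_one B) }
  -- the exceptional finite central subgroup
  let N0 : Subgroup G :=
    { carrier := {g | g ∈ Γ ∧ g ∈ Subgroup.center G ∧ ∃ s, g = z s}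
      one_mem' := ⟨Γ.one_mem, Subgroup.one_mem _, 0, hz0.symm⟩
      mul_mem' := by
        rintro x y ⟨h1, h2, s, rfl⟩ ⟨h3, h4, u, rfl⟩
        exact ⟨Γ.mul_mem h1 h3, Subgroup.mul_mem _ h2 h4, s + u, (hz.2 s u).symm⟩
      inv_mem' := by
        rintro x ⟨h1, h2, s, rfl⟩
        exact ⟨Γ.inv_mem h1, Subgroup.inv_mem _ h2, -s, (hzneg s).symm⟩ }
  have hN0fin : (N0 : Set G).Finite := hfinT.subset fun g hg => hg.2
  let D : Set G := {g | g ∈ Γ ∧ g = (QuotientGroup.mk g : G ⧸ N0).out}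
  have hDΓ : D ⊆ Γ := fun g hg => hg.1
  have hΓD : ∀ γ ∈ Γ, ∃ d ∈ D, ∃ n ∈ N0, γ = d * n := by
    intro γ hγ
    obtain ⟨n, hn⟩ := QuotientGroup.mk_out_eq_mul N0 γ
    refine ⟨(QuotientGroup.mk γ : G ⧸ N0).out, ⟨?_, ?_⟩, (n : G)⁻¹, N0.inv_mem n.2, ?_⟩
    · rw [hn]
      exact Γ.mul_mem hγ n.2.1
    · rw [QuotientGroup.out_eq']
    · rw [hn, mul_inv_cancel_right]
  obtain ⟨U, hU, hU1, hUdisj⟩ := exists_disjoint_nhd Γ
  obtain ⟨L, hL, hL1⟩ := exists_compact_mem_nhds (1 : G)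
  have hDcount : D.Countable := (Set.countable_coe_iff.mp hcountΓ).mono hDΓ
  obtain ⟨τ, -, f, hf, hfin⟩ := exists_proper_shear Fl D hDcount (by
      intro d hd d' hd' hne
      have : {τ : G | Fl.q (τ * d) = Fl.q (τ * d')} = ∅ := by
        ext τ
        simp only [mem_ofPred_eq, mem_empty_iff_false, iff_false]
        intro h
        obtain ⟨s, hs⟩ := hQsep _ _ h
        apply hne
        have h1 : a⁻¹ * (d⁻¹ * d') * a = z s := by
          have h2 : τ * (d' * a) = τ * (d * a * z s) := by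
            rw [← mul_assoc, ← mul_assoc, ← mul_assoc]
            exact hs
          have h3 : d' * a = d * a * z s := mul_left_cancel h2
          calc a⁻¹ * (d⁻¹ * d') * a = a⁻¹ * d⁻¹ * (d' * a) := by group
            _ = a⁻¹ * d⁻¹ * (d * a * z s) := by rw [h3]
            _ = z s := by group
        have h4 : d⁻¹ * d' ∈ Γ := Γ.mul_mem (Γ.inv_mem (hDΓ hd)) (hDΓ hd')
        have h5 : d⁻¹ * d' ∈ N0 := ⟨h4, ha3 _ h4 ⟨s, h1⟩⟩
        have h6 : (QuotientGroup.mk d : G ⧸ N0) = QuotientGroup.mk d' := QuotientGroup.eq.mpr h5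
        rw [hd.2, hd'.2, h6]
      rw [this, measure_empty]) (U ∩ interior L)
    (hU.inter isOpen_interior) ⟨1, hU1, mem_interior_iff_mem_nhds.mpr hL1⟩
    (fun d hd d' hd' τ hτ τ' hτ' h => hUdisj d (hDΓ hd) d' (hDΓ hd') τ hτ.1 τ' hτ'.1 h) L hL
    (inter_subset_right.trans interior_subset)
  have hq : MDifferentiable 𝓘(ℂ, E) 𝓘(ℂ, W) Fl.q :=
    hQhol.comp (mdiff_mul mdifferentiable_id mdifferentiable_const)
  have hol1 : ∀ f : W → ℂ, Differentiable ℂ f →
      MDifferentiable 𝓘(ℂ, E) 𝓘(ℂ, E) (Fl.shear f) := by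
    intro f hf
    have hfq : MDifferentiable 𝓘(ℂ, E) 𝓘(ℂ, ℂ) fun g => f (Fl.q g) :=
      (mdifferentiable_iff_differentiable.mpr hf).comp hq
    exact mdiff_mul mdifferentiable_id (mdiff_mul (mdiff_mul mdifferentiable_const
      (hz.1.comp hfq)) mdifferentiable_const)
  obtain ⟨l, hl, hl2⟩ := exists_filter hz.1 hz.2 hz1 hι hιc.injective
  refine isTame_of_proper hIP Q (fun s g => g * z s) (fun g => by rw [hz0, mul_one])
    (fun s u g => by rw [mul_assoc, ← hz.2, add_comm]) (fun s g => hQinv g s) l ?_ ?_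
    ((Equiv.mulLeft τ).trans (shearEquiv Fl f))
    ((isAutomorphism_mulLeft τ).trans (isAutomorphism_shearEquiv Fl hol1 f hf)) (Γ : Set G) ?_
  · intro g K hK
    have hK' : IsCompact ((fun y => g⁻¹ * y) '' K) :=
      hK.image (continuous_const.mul continuous_id)
    filter_upwards [hl2 _ hK'] with s hs hmem
    exact hs ⟨_, hmem, by simp⟩
  · intro h hh
    have hht : MDifferentiable 𝓘(ℂ, E) 𝓘(ℂ, ℂ) fun g => h (Q g) :=
      (mdifferentiable_iff_differentiable.mpr hh).comp hQhol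
    exact mdiff_mul mdifferentiable_id (hz.1.comp hht)
  · intro R
    have h1 : ((fun x : G × G => x.1 * x.2) ''
        ({d | d ∈ D ∧ Fl.p (Fl.shear f (τ * d)) ≤ R} ×ˢ (N0 : Set G))).Finite :=
      ((hfin R).prod hN0fin).image _
    refine h1.subset ?_
    rintro γ ⟨hγ, hγR⟩
    obtain ⟨d, hd, n, hn, rfl⟩ := hΓD γ hγ
    refine ⟨(d, n), ⟨⟨hd, ?_⟩, hn⟩, rfl⟩
    obtain ⟨-, hnc, s, hs⟩ := hn
    have hncomm := Subgroup.mem_center_iff.mp hnc
    have e1 : Fl.q (τ * (d * n)) = Fl.q (τ * d) := by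
      show Q (τ * (d * n) * a) = Q (τ * d * a)
      have : τ * (d * n) * a = τ * d * a * z s := by
        rw [← hs]
        calc τ * (d * n) * a = τ * d * (n * a) := by group
          _ = τ * d * (a * n) := by rw [hncomm a]
          _ = τ * d * a * n := by group
      rw [this, hQinv]
    have e2 : Fl.shear f (τ * (d * n)) = Fl.shear f (τ * d) * n := by
      show τ * (d * n) * (a * z (f (Fl.q (τ * (d * n)))) * a⁻¹) =
        τ * d * (a * z (f (Fl.q (τ * d))) * a⁻¹) * n
      rw [e1]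
      set X : G := a * z (f (Fl.q (τ * d))) * a⁻¹ with hX
      calc τ * (d * n) * X = τ * d * (n * X) := by simp only [mul_assoc]
        _ = τ * d * (X * n) := by rw [hncomm X]
        _ = τ * d * X * n := by simp only [mul_assoc]
    have e3 : ‖Q (Fl.shear f (τ * (d * n)))‖ ≤ R := hγR
    rw [e2, hs, hQinv] at e3
    exact e3

end Pool.Agent.Work.MP_970e75_an.Full
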