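import Pool.Agent.Work.MP_970e75_an.Full.Interface
import Pool.Agent.Work.MP_970e75_an.Gen.OneParam

/-!
Elementary lemmas on operator exponentials and on the Lie group tools.
-/

set_option autoImplicit false

namespace Pool.Agent.Work.MP_970e75_an.Full

open Filter Topology Set
open scoped Manifold ContDiff Topology
open Pool.Agent.Work.MP_970e75_an.Gen

section Operator

variable {E : Type} [NormedAddCommGroup E] [NormedSpace ℂ E] [FiniteDimensional ℂ E]

theorem hasSum_exp_apply (A : E →L[ℂ] E) (v : E) :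
    HasSum (fun n : ℕ => ((n.factorial : ℂ)⁻¹) • (A ^ n) v) (NormedSpace.exp A v) := by
  have : CompleteSpace E := FiniteDimensional.complete ℂ E
  have h := NormedSpace.exp_series_hasSum_exp' (𝕂 := ℂ) A
  have h2 := h.mapL (ContinuousLinearMap.apply ℂ E v)
  simpa using h2

/-- The exponential preserves invariant subspaces. -/
theorem exp_mem (A : E →L[ℂ] E) (V : Submodule ℂ E) (hV : ∀ v ∈ V, A v ∈ V) :
    ∀ v ∈ V, NormedSpace.exp A v ∈ V := by
  intro v hv
  have hp : ∀ n : ℕ, (A ^ n) v ∈ V := by
    intro n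
    induction n with
    | zero => simpa using hv
    | succ n ih =>
      rw [pow_succ']
      exact hV _ ih
  have hcl : IsClosed (V : Set E) := V.closed_of_finiteDimensional
  exact hcl.mem_of_tendsto (hasSum_exp_apply A v)
    (Eventually.of_forall fun s => V.sum_mem fun n _ => V.smul_mem _ (hp n))

theorem exp_apply_of_apply_eq_smul (A : E →L[ℂ] E) (v : E) (c : ℂ) (h : A v = c • v) :
    NormedSpace.exp A v = Complex.exp c • v := by
  have hp : ∀ n : ℕ, (A ^ n) v = c ^ n • v := by
    intro n
    induction n with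
    | zero => simp
    | succ n ih =>
      rw [pow_succ']
      show A ((A ^ n) v) = _
      rw [ih, map_smul, h, smul_smul, pow_succ]
  have h1 := hasSum_exp_apply A v
  have h2 := (NormedSpace.exp_series_hasSum_exp' (𝕂 := ℂ) c).smul_const v
  rw [← Complex.exp_eq_exp_ℂ] at h2
  refine h1.unique ?_
  convert h2 using 2 with n
  rw [hp, smul_smul, smul_eq_mul]

theorem exp_apply_of_apply_eq_zero (A : E →L[ℂ] E) (v : E) (h : A v = 0) :
    NormedSpace.exp A v = v := by
  have := exp_apply_of_apply_eq_smul A v 0 (by rw [h, zero_smul])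
  simpa using this

/-- The exponential on a vector killed by the third power. -/
theorem exp_apply_of_sq (A : E →L[ℂ] E) (v w u : E) (h1 : A v = w) (h2 : A w = u) (h3 : A u = 0) :
    NormedSpace.exp A v = v + w + (2 : ℂ)⁻¹ • u := by
  have hp : ∀ n : ℕ, (A ^ (n + 3)) v = 0 := by
    intro n
    rw [pow_add]
    show (A ^ n) ((A ^ 3) v) = 0
    have : (A ^ 3) v = 0 := by
      rw [pow_succ, pow_succ, pow_one]
      show A (A (A v)) = 0
      rw [h1, h2, h3]
    rw [this, map_zero]
  have hs := hasSum_exp_apply A v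
  have hs2 : HasSum (fun n : ℕ => ((n.factorial : ℂ)⁻¹) • (A ^ n) v)
      (∑ n ∈ Finset.range 3, ((n.factorial : ℂ)⁻¹) • (A ^ n) v) := by
    apply hasSum_sum_of_ne_finset_zero
    intro n hn
    obtain ⟨k, rfl⟩ : ∃ k, n = k + 3 := ⟨n - 3, by
      simp only [Finset.mem_range, not_lt] at hn; omega⟩
    rw [hp, smul_zero]
  rw [hs.unique hs2]
  simp only [Finset.sum_range_succ, Finset.sum_range_zero, Nat.factorial]
  have h4 : (A ^ 2) v = u := by
    rw [pow_succ, pow_one]
    show A (A v) = u
    rw [h1, h2]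
  rw [h4]
  simp [h1]

theorem exp_apply_of_apply_apply_eq_zero (A : E →L[ℂ] E) (v w : E) (h1 : A v = w) (h2 : A w = 0) :
    NormedSpace.exp A v = v + w := by
  have := exp_apply_of_sq A v w 0 h1 h2 (map_zero A)
  simpa using this

end Operator

namespace LieTools

variable {E : Type} [NormedAddCommGroup E] [NormedSpace ℂ E] {G : Type}
    [TopologicalSpace G] [ChartedSpace E G] [Group G] (T : LieTools E G)

theorem exp_zero : T.exp 0 = 1 := by
  have h := T.exp_add 0 0 0
  simp only [smul_zero] at h
  exact (mul_eq_left.mp h.symm)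

theorem exp_neg (X : E) : T.exp (-X) = (T.exp X)⁻¹ := by
  have h := T.exp_add X (-1) 1
  simp only [neg_add_cancel, zero_smul, neg_smul, one_smul] at h
  rw [T.exp_zero] at h
  exact eq_inv_of_mul_eq_one_left h.symm

theorem exp_nsmul (X : E) (n : ℕ) : T.exp (n • X) = T.exp X ^ n := by
  induction n with
  | zero => simp [T.exp_zero]
  | succ n ih =>
    have h := T.exp_add X (n : ℂ) 1
    rw [one_smul, Nat.cast_smul_eq_nsmul, ih] at h
    rw [pow_succ, ← h]
    congr 1
    rw [succ_nsmul, add_smul, one_smul, Nat.cast_smul_eq_nsmul]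

theorem isOneParam (X : E) : IsOneParam E fun s : ℂ => T.exp (s • X) := by
  refine ⟨?_, fun s t => T.exp_add X s t⟩
  apply T.exp_hol.comp
  apply mdifferentiable_iff_differentiable.mpr
  exact differentiable_id.smul_const X

theorem exists_exp_ne_one (X : E) (hX : X ≠ 0) : ∃ s : ℂ, T.exp (s • X) ≠ 1 := by
  by_contra hcon
  push Not at hcon
  have h1 : Tendsto (fun s : ℂ => s • X) (𝓝 0) (𝓝 0) := by
    have : Continuous fun s : ℂ => s • X := continuous_id.smul continuous_const
    simpa using this.tendsto 0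
  have h2 := h1.eventually T.log_exp
  have h3 := T.log_exp.self_of_nhds
  rw [T.exp_zero] at h3
  obtain ⟨ε, hε, hball⟩ := Metric.eventually_nhds_iff.mp h2
  have h4 := hball (y := ((ε / 2 : ℝ) : ℂ)) (by
    rw [dist_zero_right, Complex.norm_real, Real.norm_eq_abs, abs_of_pos (by positivity)]
    linarith)
  rw [hcon, h3] at h4
  have h5 : ((ε / 2 : ℝ) : ℂ) ≠ 0 := by
    exact_mod_cast (by positivity : (0 : ℝ) < ε / 2).ne'
  rcases smul_eq_zero.mp h4.symm with h | h
  · exact h5 h
  · exact hX h

theorem Ad_mul_apply (g h : G) (X : E) : T.Ad (g * h) X = T.Ad g (T.Ad h X) := by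
  rw [T.Ad_mul]; rfl

theorem Ad_inv_apply (g : G) (X : E) : T.Ad g⁻¹ (T.Ad g X) = X := by
  rw [← T.Ad_mul_apply, inv_mul_cancel, T.Ad_one]; rfl

theorem Ad_apply_inv (g : G) (X : E) : T.Ad g (T.Ad g⁻¹ X) = X := by
  rw [← T.Ad_mul_apply, mul_inv_cancel, T.Ad_one]; rfl

theorem Ad_injective (g : G) : Function.Injective (T.Ad g) := fun X Y h => by
  have := congrArg (T.Ad g⁻¹) h
  rwa [T.Ad_inv_apply, T.Ad_inv_apply] at this

/-- Commuting exponentials. -/
theorem exp_commute [FiniteDimensional ℂ E] (X Y : E) (h : T.br X Y = 0) :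
    T.exp X * T.exp Y = T.exp Y * T.exp X := by
  have h1 : T.Ad (T.exp X) Y = Y := by
    rw [T.Ad_exp]
    exact exp_apply_of_apply_eq_zero _ _ h
  have h2 := T.exp_Ad (T.exp X) Y
  rw [h1] at h2
  rw [eq_mul_inv_iff_mul_eq] at h2
  exact h2.symm

theorem br_skew (X Y : E) : T.br X Y = - T.br Y X := by
  have h := T.br_self (X + Y)
  simp only [map_add, add_apply, T.br_self, zero_add, add_zero] at h
  exact eq_neg_of_add_eq_zero_right h

/-- In a connected group the exponentials generate. -/
theorem closure_range_exp [IsTopologicalGroup G] [ConnectedSpace G] :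
    Subgroup.closure (range T.exp) = ⊤ := by
  set H : Subgroup G := Subgroup.closure (range T.exp) with hH
  have hU : T.U ⊆ H := by
    intro g hg
    rw [← T.exp_log g hg]
    exact Subgroup.subset_closure (mem_range_self _)
  have hopen : IsOpen (H : Set G) :=
    Subgroup.isOpen_of_mem_nhds H (g := 1) (mem_of_superset (T.U_open.mem_nhds T.one_mem) hU)
  have hclosed : IsClosed (H : Set G) := Subgroup.isClosed_of_isOpen H hopen
  have h1 : (H : Set G) = univ :=
    IsClopen.eq_univ ⟨hclosed, hopen⟩ ⟨1, H.one_mem⟩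
  exact SetLike.coe_injective (by rw [h1]; rfl)

/-- Induction on a connected group. -/
theorem induction [IsTopologicalGroup G] [ConnectedSpace G] {P : G → Prop} (h1 : P 1)
    (hexp : ∀ X, P (T.exp X)) (hmul : ∀ g h, P g → P h → P (g * h)) (g : G) : P g := by
  have hg : g ∈ Subgroup.closure (range T.exp) := by
    rw [T.closure_range_exp]; trivial
  induction hg using Subgroup.closure_induction with
  | mem x hx =>
    obtain ⟨X, rfl⟩ := hx
    exact hexp X
  | one => exact h1
  | mul x y _ _ hx hy => exact hmul x y hx hy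
  | inv x hx ih =>
    -- inverses of products of exponentials
    have key : ∀ y ∈ Subgroup.closure (range T.exp), P y⁻¹ := by
      intro y hy
      induction hy using Subgroup.closure_induction'' with
      | mem x hx =>
        obtain ⟨X, rfl⟩ := hx
        rw [← T.exp_neg]
        exact hexp _
      | inv_mem x hx =>
        obtain ⟨X, rfl⟩ := hx
        rw [inv_inv]
        exact hexp _
      | one => rw [inv_one]; exact h1
      | mul x y _ _ hx hy =>
        rw [mul_inv_rev]
        exact hmul _ _ hy hx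
    exact key x hx

/-- Subspaces stable under `ad` are stable under `Ad` (connected groups). -/
theorem Ad_mem [IsTopologicalGroup G] [ConnectedSpace G] [FiniteDimensional ℂ E]
    (V : Submodule ℂ E) (hV : ∀ X, ∀ v ∈ V, T.br X v ∈ V) (g : G) :
    ∀ v ∈ V, T.Ad g v ∈ V := by
  refine T.induction (P := fun g => ∀ v ∈ V, T.Ad g v ∈ V) ?_ ?_ ?_ g
  · intro v hv
    rw [T.Ad_one]
    exact hv
  · intro X v hv
    rw [T.Ad_exp]
    exact exp_mem _ V (hV X) v hv
  · intro g h hg hh v hv
    rw [T.Ad_mul_apply]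
    exact hg _ (hh v hv)

/-- Exponentials of central elements are central (connected groups). -/
theorem exp_mem_center [IsTopologicalGroup G] [ConnectedSpace G] [FiniteDimensional ℂ E]
    (Z : E) (hZ : ∀ X, T.br X Z = 0) : T.exp Z ∈ Subgroup.center G := by
  rw [Subgroup.mem_center_iff]
  intro g
  refine T.induction (P := fun g => g * T.exp Z = T.exp Z * g) ?_ ?_ ?_ g
  · rw [one_mul, mul_one]
  · intro X
    exact T.exp_commute X Z (hZ X)
  · intro g h hg hh
    rw [mul_assoc, hh, ← mul_assoc, hg, mul_assoc]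

/-- `Ad` is trivial on a vector which commutes with everything. -/
theorem Ad_apply_of_central [IsTopologicalGroup G] [ConnectedSpace G] [FiniteDimensional ℂ E]
    (Z : E) (hZ : ∀ X, T.br X Z = 0) (g : G) : T.Ad g Z = Z := by
  refine T.induction (P := fun g => T.Ad g Z = Z) ?_ ?_ ?_ g
  · rw [T.Ad_one]; rfl
  · intro X
    rw [T.Ad_exp]
    exact exp_apply_of_apply_eq_zero _ _ (hZ X)
  · intro g h hg hh
    rw [T.Ad_mul_apply, hh, hg]

/-- `Ad (exp Z)` is trivial for a central vector `Z`. -/
theorem Ad_exp_of_central [FiniteDimensional ℂ E] (Z : E) (hZ : ∀ X, T.br Z X = 0) (X : E) :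
    T.Ad (T.exp Z) X = X := by
  rw [T.Ad_exp]
  exact exp_apply_of_apply_eq_zero _ _ (hZ X)

/-- `Ad (exp (s X))` on an eigenvector of `br X`. -/
theorem Ad_exp_smul [FiniteDimensional ℂ E] (X Y : E) (c s : ℂ) (h : T.br X Y = c • Y) :
    T.Ad (T.exp (s • X)) Y = Complex.exp (s * c) • Y := by
  rw [T.Ad_exp]
  apply exp_apply_of_apply_eq_smul
  rw [map_smul, smul_apply, h, smul_smul]

end LieTools

end Pool.Agent.Work.MP_970e75_an.Full
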